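import Pool.Agent.Q232.CT.Lim
import Pool.Agent.W597.EH_BM

/-!
# The equality case of the Brunn-Minkowski inequality
-/

namespace Pool.Agent.Q232.CT

open MeasureTheory Filter Topology
open scoped ENNReal
open Pool.Agent.H349R2.Tet Pool.Agent.TH219.DL

/-- the distribution of a linear function on a set -/
noncomputable def dm (A : Set V) (l : V →L[ℝ] ℝ) : Measure ℝ := (volume.restrict A).map l

theorem dm_apply (A : Set V) (l : V →L[ℝ] ℝ) {S : Set ℝ} (hS : MeasurableSet S) :
    dm A l S = volume (A ∩ l ⁻¹' S) := by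
  unfold dm
  rw [Measure.map_apply l.continuous.measurable hS,
    Measure.restrict_apply (l.continuous.measurable hS), Set.inter_comm]

theorem dm_finite {A : Set V} (hA : IsCompact A) (l : V →L[ℝ] ℝ) : IsFiniteMeasure (dm A l) := by
  refine ⟨?_⟩
  rw [dm_apply A l MeasurableSet.univ]
  exact lt_of_le_of_lt (measure_mono Set.inter_subset_left) hA.measure_lt_top

/-- the distribution function -/
noncomputable def F (A : Set V) (l : V →L[ℝ] ℝ) (t : ℝ) : ℝ := (dm A l (Set.Iic t)).toReal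

/-- the upper distribution function -/
noncomputable def G (A : Set V) (l : V →L[ℝ] ℝ) (t : ℝ) : ℝ := (dm A l (Set.Ici t)).toReal

theorem bm_real {P Q R : Set V} (hP : IsCompact P) (hQ : IsCompact Q) (hR : IsCompact R)
    (h : ∀ x ∈ P, ∀ y ∈ Q, (1 / 2 : ℝ) • x + (1 / 2 : ℝ) • y ∈ R) :
    (volume P).toReal * (volume Q).toReal ≤ (volume R).toReal ^ 2 := by
  have h1 := Pool.Agent.W597.EHBM.bm_ennreal (1 / 2) (by norm_num) (by norm_num) P Q R hP hQ hR
    (fun x hx y hy => by
      have := h x hx y hy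
      convert this using 3
      norm_num)
  have h2 := ENNReal.toReal_mono hR.measure_ne_top h1
  rw [ENNReal.toReal_mul, ← ENNReal.toReal_rpow, ← ENNReal.toReal_rpow] at h2
  have h3 : (1 - 1 / 2 : ℝ) = 1 / 2 := by norm_num
  rw [h3, ← Real.sqrt_eq_rpow, ← Real.sqrt_eq_rpow] at h2
  have h4 := pow_le_pow_left₀ (by positivity) h2 2
  rwa [mul_pow, Real.sq_sqrt ENNReal.toReal_nonneg, Real.sq_sqrt ENNReal.toReal_nonneg] at h4

section

variable {A B K : Set V} (hA : IsCompact A) (hB : IsCompact B) (hKc : IsCompact K)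
  (hm : ∀ x ∈ A, ∀ y ∈ B, (1 / 2 : ℝ) • x + (1 / 2 : ℝ) • y ∈ K) (l : V →L[ℝ] ℝ)

include hA hB hKc hm

theorem F_mul (s t : ℝ) : F A l s * F B l t ≤ F K l ((s + t) / 2) ^ 2 := by
  unfold F
  rw [dm_apply _ _ measurableSet_Iic, dm_apply _ _ measurableSet_Iic, dm_apply _ _ measurableSet_Iic]
  apply bm_real
  · exact hA.inter_right (isClosed_Iic.preimage l.continuous)
  · exact hB.inter_right (isClosed_Iic.preimage l.continuous)
  · exact hKc.inter_right (isClosed_Iic.preimage l.continuous)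
  · rintro x ⟨hx, hx'⟩ y ⟨hy, hy'⟩
    refine ⟨hm x hx y hy, ?_⟩
    rw [Set.mem_preimage, Set.mem_Iic] at hx' hy' ⊢
    rw [map_add, map_smul, map_smul, smul_eq_mul, smul_eq_mul]
    linarith

theorem G_mul (s t : ℝ) : G A l s * G B l t ≤ G K l ((s + t) / 2) ^ 2 := by
  unfold G
  rw [dm_apply _ _ measurableSet_Ici, dm_apply _ _ measurableSet_Ici, dm_apply _ _ measurableSet_Ici]
  apply bm_real
  · exact hA.inter_right (isClosed_Ici.preimage l.continuous)
  · exact hB.inter_right (isClosed_Ici.preimage l.continuous)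
  · exact hKc.inter_right (isClosed_Ici.preimage l.continuous)
  · rintro x ⟨hx, hx'⟩ y ⟨hy, hy'⟩
    refine ⟨hm x hx y hy, ?_⟩
    rw [Set.mem_preimage, Set.mem_Ici] at hx' hy' ⊢
    rw [map_add, map_smul, map_smul, smul_eq_mul, smul_eq_mul]
    linarith

end

theorem F_mono {A : Set V} (hA : IsCompact A) (l : V →L[ℝ] ℝ) : Monotone (F A l) := by
  intro s t hst
  have := dm_finite hA l
  exact ENNReal.toReal_mono (measure_ne_top _ _) (measure_mono (Set.Iic_subset_Iic.2 hst))

theorem F_nonneg (A : Set V) (l : V →L[ℝ] ℝ) (t : ℝ) : 0 ≤ F A l t := ENNReal.toReal_nonneg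

theorem F_add_G {A : Set V} (hA : IsCompact A) (l : V →L[ℝ] ℝ) {s t : ℝ} (hst : s < t) :
    F A l s + G A l t ≤ (volume A).toReal := by
  have := dm_finite hA l
  unfold F G
  rw [← ENNReal.toReal_add (measure_ne_top _ _) (measure_ne_top _ _)]
  apply ENNReal.toReal_mono hA.measure_ne_top
  rw [← measure_union _ measurableSet_Ici, dm_apply _ _ (measurableSet_Iic.union measurableSet_Ici)]
  · exact measure_mono Set.inter_subset_left
  · rw [Set.disjoint_left]
    intro x hx hx'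
    exact absurd (hst.trans_le hx') (not_lt.2 hx)

theorem le_F_add_G {A : Set V} (hA : IsCompact A) (l : V →L[ℝ] ℝ) (t : ℝ) :
    (volume A).toReal ≤ F A l t + G A l t := by
  have := dm_finite hA l
  unfold F G
  rw [← ENNReal.toReal_add (measure_ne_top _ _) (measure_ne_top _ _)]
  apply ENNReal.toReal_mono (ENNReal.add_ne_top.2 ⟨measure_ne_top _ _, measure_ne_top _ _⟩)
  refine le_trans (le_of_eq ?_) (measure_union_le _ _)
  rw [Set.Iic_union_Ici, dm_apply _ _ MeasurableSet.univ, Set.preimage_univ, Set.inter_univ]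

/-- the left quantile -/
noncomputable def qt (A : Set V) (l : V →L[ℝ] ℝ) (α : ℝ) : ℝ := sInf {t | α ≤ F A l t}

theorem qt_set {A : Set V} (hA : IsCompact A) (l : V →L[ℝ] ℝ) {α : ℝ} (h0 : 0 < α)
    (h1 : α ≤ (volume A).toReal) :
    {t | α ≤ F A l t}.Nonempty ∧ BddBelow {t | α ≤ F A l t} := by
  obtain ⟨R, hR⟩ := (hA.image l.continuous).isBounded.subset_closedBall (0 : ℝ)
  have hR' : ∀ x ∈ A, |l x| ≤ R := fun x hx => by
    have := hR ⟨x, hx, rfl⟩
    rwa [mem_closedBall_zero_iff, Real.norm_eq_abs] at this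
  refine ⟨⟨R, ?_⟩, ⟨-R, ?_⟩⟩
  · show α ≤ F A l R
    refine h1.trans (le_of_eq ?_)
    unfold F
    rw [dm_apply _ _ measurableSet_Iic]
    congr 2
    symm
    rw [Set.inter_eq_left]
    exact fun x hx => (le_abs_self _).trans (hR' x hx)
  · intro t ht
    by_contra hlt
    push Not at hlt
    have ht' : α ≤ F A l t := ht
    have h2 : F A l t = 0 := by
      unfold F
      rw [dm_apply _ _ measurableSet_Iic]
      have : A ∩ l ⁻¹' Set.Iic t = ∅ := by
        rw [Set.eq_empty_iff_forall_notMem]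
        rintro x ⟨hx, hx'⟩
        have h3 : l x ≤ t := hx'
        have h4 := (abs_le.1 (hR' x hx)).1
        linarith
      rw [this, measure_empty, ENNReal.toReal_zero]
    linarith

theorem F_ge_of_gt {A : Set V} (hA : IsCompact A) (l : V →L[ℝ] ℝ) {α t : ℝ} (h0 : 0 < α)
    (h1 : α ≤ (volume A).toReal) (ht : qt A l α < t) : α ≤ F A l t := by
  obtain ⟨s, hs, hst⟩ := exists_lt_of_csInf_lt (qt_set hA l h0 h1).1 ht
  exact (show α ≤ F A l s from hs).trans (F_mono hA l hst.le)

theorem F_lt_of_lt {A : Set V} (hA : IsCompact A) (l : V →L[ℝ] ℝ) {α t : ℝ} (h0 : 0 < α)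
    (h1 : α ≤ (volume A).toReal) (ht : t < qt A l α) : F A l t < α := by
  by_contra h
  push Not at h
  exact absurd ht (not_lt.2 (csInf_le (qt_set hA l h0 h1).2 h))

theorem qt_le {A : Set V} (hA : IsCompact A) (l : V →L[ℝ] ℝ) {α t : ℝ} (h0 : 0 < α)
    (h1 : α ≤ (volume A).toReal) (h : α ≤ F A l t) : qt A l α ≤ t :=
  csInf_le (qt_set hA l h0 h1).2 h

theorem qt_mono {A : Set V} (hA : IsCompact A) (l : V →L[ℝ] ℝ) {α β : ℝ} (h0 : 0 < α)
    (h1 : β ≤ (volume A).toReal) (h : α ≤ β) : qt A l α ≤ qt A l β := by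
  apply le_of_forall_gt
  intro t ht
  by_contra hcon
  push Not at hcon
  have h2 := F_ge_of_gt hA l (h0.trans_le h) h1 (lt_of_lt_of_le ht le_rfl)
  rcases hcon.lt_or_eq with h3 | h3
  · have := F_lt_of_lt hA l h0 (h.trans h1) h3
    linarith
  · -- `t = qt α`; take a smaller point
    obtain ⟨s, hs1, hs2⟩ := exists_between ht
    have h4 := F_ge_of_gt hA l (h0.trans_le h) h1 hs1
    have h5 := F_lt_of_lt hA l h0 (h.trans h1) (by rw [← h3]; exact hs2)
    linarith

/-- the quantile inequality -/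
theorem qt_ineq {A B K : Set V} (hA : IsCompact A) (hB : IsCompact B) (hKc : IsCompact K)
    (hm : ∀ x ∈ A, ∀ y ∈ B, (1 / 2 : ℝ) • x + (1 / 2 : ℝ) • y ∈ K) (l : V →L[ℝ] ℝ) {v : ℝ}
    (hvA : (volume A).toReal = v) (hvB : (volume B).toReal = v) (hvK : (volume K).toReal ≤ v)
    {α β M : ℝ} (hα : 0 < α) (hα' : α ≤ v) (hβ : 0 < β) (hβ' : β ≤ v) (hM : 0 < M) (hM' : M ≤ v)
    (hMM : M ^ 2 = α * β) : qt A l M + qt B l M ≤ qt A l α + qt B l β := by
  by_contra hcon
  push Not at hcon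
  obtain ⟨e, he⟩ : ∃ e, e = (qt A l M + qt B l M - (qt A l α + qt B l β)) / 5 := ⟨_, rfl⟩
  have he0 : 0 < e := by rw [he]; linarith
  have h1 := F_ge_of_gt hA l hα (hα'.trans hvA.ge) (show qt A l α < qt A l α + e by linarith)
  have h2 := F_ge_of_gt hB l hβ (hβ'.trans hvB.ge) (show qt B l β < qt B l β + e by linarith)
  have h3 := F_lt_of_lt hA l hM (hM'.trans hvA.ge) (show qt A l M - e < qt A l M by linarith)
  have h4 := F_lt_of_lt hB l hM (hM'.trans hvB.ge) (show qt B l M - e < qt B l M by linarith)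
  have h5 := F_mul hA hB hKc hm l (qt A l α + e) (qt B l β + e)
  have h6 := G_mul hA hB hKc hm l (qt A l M - e) (qt B l M - e)
  have h7 := le_F_add_G hA l (qt A l M - e)
  have h8 := le_F_add_G hB l (qt B l M - e)
  have h9 := F_add_G hKc l (s := (qt A l α + e + (qt B l β + e)) / 2)
    (t := (qt A l M - e + (qt B l M - e)) / 2) (by linarith)
  rw [hvA] at h7
  rw [hvB] at h8
  have h10 : M ≤ F K l ((qt A l α + e + (qt B l β + e)) / 2) := by
    refine (pow_le_pow_iff_left₀ hM.le (F_nonneg _ _ _) two_ne_zero).1 ?_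
    rw [hMM]
    exact (mul_le_mul h1 h2 hβ.le (hα.le.trans h1)).trans h5
  have h11 : v - M < G K l ((qt A l M - e + (qt B l M - e)) / 2) := by
    have h12 : v - M < G A l (qt A l M - e) := by linarith
    have h13 : v - M < G B l (qt B l M - e) := by linarith
    have hG0 : 0 ≤ G K l ((qt A l M - e + (qt B l M - e)) / 2) := ENNReal.toReal_nonneg
    apply lt_of_pow_lt_pow_left₀ 2 hG0
    refine lt_of_lt_of_le ?_ h6
    rw [sq]
    exact mul_lt_mul'' h12 h13 (by linarith) (by linarith)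
  linarith

/-- the quantile as a function of the logarithm of the volume -/
noncomputable def lq (A : Set V) (l : V →L[ℝ] ℝ) (v a : ℝ) : ℝ := qt A l (v * Real.exp a)

theorem lq_tel {f g : ℝ → ℝ} (h : ∀ a b : ℝ, a ≤ 0 → b ≤ 0 →
    f ((a + b) / 2) + g ((a + b) / 2) ≤ f a + g b) {x δ : ℝ} (hδ : 0 < δ) :
    ∀ k : ℕ, x + k * δ ≤ 0 → g (x + k * δ - δ) - g (x - δ) ≤ f (x + k * δ) - f x := by
  intro k
  induction k with
  | zero => intro _; simp
  | succ k ih =>
    intro hk
    push_cast at hk ⊢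
    have h1 := ih (by nlinarith)
    have h2 := h (x + (k + 1) * δ) (x + k * δ - δ) hk (by nlinarith)
    have e1 : (x + ((k : ℝ) + 1) * δ + (x + k * δ - δ)) / 2 = x + k * δ := by ring
    rw [e1] at h2
    have e2 : x + ((k : ℝ) + 1) * δ - δ = x + k * δ := by ring
    rw [e2]
    linarith

/-- increments of the quantile functions -/
theorem incr {f g : ℝ → ℝ} (h : ∀ a b : ℝ, a ≤ 0 → b ≤ 0 →
    f ((a + b) / 2) + g ((a + b) / 2) ≤ f a + g b)
    (hg : ∀ a b : ℝ, a ≤ b → b ≤ 0 → g a ≤ g b)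
    (hlc : ∀ y ≤ (0 : ℝ), ∀ t < g y, ∃ η > 0, ∀ δ, 0 < δ → δ < η → t ≤ g (y - δ))
    {x y : ℝ} (hxy : x < y) (hy : y ≤ 0) : g y - g x ≤ f y - f x := by
  apply le_of_forall_lt
  intro c hc
  obtain ⟨t, ht1, ht2⟩ := exists_between (show c + g x < g y by linarith)
  obtain ⟨η, hη, hδ⟩ := hlc y hy t ht2
  obtain ⟨n, hn⟩ := exists_nat_gt ((y - x) / η)
  have hn0 : (0 : ℝ) < n := lt_of_le_of_lt (div_nonneg (by linarith) hη.le) hn
  obtain ⟨δ, hδd⟩ : ∃ δ, δ = (y - x) / n := ⟨_, rfl⟩
  have hδ0 : 0 < δ := by rw [hδd]; exact div_pos (by linarith) hn0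
  have hδη : δ < η := by
    rw [hδd, div_lt_iff₀ hn0]
    rw [div_lt_iff₀ hη] at hn
    linarith
  have hnd : x + n * δ = y := by rw [hδd]; field_simp; ring
  have h1 := lq_tel h hδ0 (x := x) n (by rw [hnd]; exact hy)
  rw [hnd] at h1
  have h2 := hδ δ hδ0 hδη
  have h3 := hg (x - δ) x (by linarith) (by linarith)
  linarith

theorem lq_lc {A : Set V} (hA : IsCompact A) (l : V →L[ℝ] ℝ) {v : ℝ} (hv : 0 < v)
    (hvA : (volume A).toReal = v) :
    ∀ y ≤ (0 : ℝ), ∀ t < lq A l v y, ∃ η > 0, ∀ δ, 0 < δ → δ < η → t ≤ lq A l v (y - δ) := by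
  intro y hy t ht
  have hey : v * Real.exp y ≤ v := by
    have := Real.exp_le_one_iff.2 hy
    nlinarith
  have h1 := F_lt_of_lt hA l (by positivity) (hey.trans hvA.ge) ht
  -- continuity of the exponential function
  have hcont : Tendsto (fun δ : ℝ => v * Real.exp (y - δ)) (𝓝 0) (𝓝 (v * Real.exp (y - 0))) :=
    Continuous.tendsto (by fun_prop) 0
  rw [sub_zero] at hcont
  have h2 := hcont.eventually (lt_mem_nhds h1)
  obtain ⟨η, hη, h3⟩ := Metric.eventually_nhds_iff.1 h2
  refine ⟨η, hη, fun δ hδ0 hδ => ?_⟩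
  have h4 := h3 (y := δ) (by rw [Real.dist_eq, sub_zero, abs_of_pos hδ0]; exact hδ)
  by_contra hcon
  push Not at hcon
  have hey' : v * Real.exp (y - δ) ≤ v := by
    have := Real.exp_le_one_iff.2 (show y - δ ≤ 0 by linarith)
    nlinarith
  have h5 := F_ge_of_gt hA l (α := v * Real.exp (y - δ)) (by positivity) (hey'.trans hvA.ge) hcon
  linarith

/-- the quantile functions differ by a constant -/
theorem lq_diff {A B K : Set V} (hA : IsCompact A) (hB : IsCompact B) (hKc : IsCompact K)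
    (hm : ∀ x ∈ A, ∀ y ∈ B, (1 / 2 : ℝ) • x + (1 / 2 : ℝ) • y ∈ K) (l : V →L[ℝ] ℝ) {v : ℝ}
    (hv : 0 < v) (hvA : (volume A).toReal = v) (hvB : (volume B).toReal = v)
    (hvK : (volume K).toReal ≤ v) {x : ℝ} (hx : x ≤ 0) :
    lq A l v x - lq B l v x = lq A l v 0 - lq B l v 0 := by
  have hle : ∀ a : ℝ, a ≤ 0 → v * Real.exp a ≤ v := fun a ha => by
    have := Real.exp_le_one_iff.2 ha
    nlinarith
  have hAB : ∀ a b : ℝ, a ≤ 0 → b ≤ 0 →
      lq A l v ((a + b) / 2) + lq B l v ((a + b) / 2) ≤ lq A l v a + lq B l v b := by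
    intro a b ha hb
    refine qt_ineq hA hB hKc hm l hvA hvB hvK (by positivity) (hle a ha) (by positivity)
      (hle b hb) (by positivity) (hle _ (by linarith)) ?_
    have : Real.exp ((a + b) / 2) ^ 2 = Real.exp a * Real.exp b := by
      rw [sq, ← Real.exp_add, ← Real.exp_add]; ring_nf
    rw [mul_pow, this]; ring
  have hm' : ∀ x ∈ B, ∀ y ∈ A, (1 / 2 : ℝ) • x + (1 / 2 : ℝ) • y ∈ K := fun x hx y hy => by
    rw [add_comm]; exact hm y hy x hx
  have hBA : ∀ a b : ℝ, a ≤ 0 → b ≤ 0 →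
      lq B l v ((a + b) / 2) + lq A l v ((a + b) / 2) ≤ lq B l v a + lq A l v b := by
    intro a b ha hb
    have := hAB b a hb ha
    rw [add_comm b a] at this
    linarith
  have hmA : ∀ a b : ℝ, a ≤ b → b ≤ 0 → lq A l v a ≤ lq A l v b := fun a b hab hb =>
    qt_mono hA l (by positivity) ((hle b hb).trans hvA.ge) (by gcongr)
  have hmB : ∀ a b : ℝ, a ≤ b → b ≤ 0 → lq B l v a ≤ lq B l v b := fun a b hab hb =>
    qt_mono hB l (by positivity) ((hle b hb).trans hvB.ge) (by gcongr)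
  rcases hx.lt_or_eq with hx | hx
  · have h1 := incr hAB hmB (lq_lc hB l hv hvB) hx le_rfl
    have h2 := incr hBA hmA (lq_lc hA l hv hvA) hx le_rfl
    linarith
  · rw [hx]

/-- right continuity of distribution functions -/
theorem right_cont (μ : Measure ℝ) [IsFiniteMeasure μ] (t : ℝ) {c : ℝ≥0∞}
    (h : ∀ t' > t, c ≤ μ (Set.Iic t')) : c ≤ μ (Set.Iic t) := by
  have h1 : Set.Iic t = ⋂ n : ℕ, Set.Iic (t + 1 / ((n : ℝ) + 1)) := by
    ext x
    simp only [Set.mem_Iic, Set.mem_iInter]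
    constructor
    · intro hx n
      have : (0 : ℝ) < 1 / ((n : ℝ) + 1) := by positivity
      linarith
    · intro hx
      apply le_of_forall_pos_le_add
      intro e he
      obtain ⟨n, hn⟩ := exists_nat_one_div_lt he
      linarith [hx n]
  have h2 : Tendsto (fun n : ℕ => μ (Set.Iic (t + 1 / ((n : ℝ) + 1)))) atTop (𝓝 (μ (Set.Iic t))) := by
    conv => arg 3; rw [h1]
    apply tendsto_measure_iInter_atTop
    · exact fun n => measurableSet_Iic.nullMeasurableSet
    · intro m n hmn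
      apply Set.Iic_subset_Iic.2
      have : (m : ℝ) ≤ n := by exact_mod_cast hmn
      gcongr
    · exact ⟨0, measure_ne_top _ _⟩
  refine ge_of_tendsto h2 (Eventually.of_forall fun n => h _ ?_)
  have : (0 : ℝ) < 1 / ((n : ℝ) + 1) := by positivity
  show t < _
  linarith

/-- comparison of the distribution functions -/
theorem F_shift {A B : Set V} (hA : IsCompact A) (hB : IsCompact B) (l : V →L[ℝ] ℝ) {v : ℝ}
    (hv : 0 < v) (hvA : (volume A).toReal = v) (hvB : (volume B).toReal = v) {c : ℝ}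
    (hd : ∀ x ≤ (0 : ℝ), lq A l v x = lq B l v x + c) (t : ℝ) :
    dm B l (Set.Iic t) ≤ dm A l (Set.Iic (t + c)) := by
  have := dm_finite hA l
  have := dm_finite hB l
  apply right_cont
  intro t' ht'
  have ht'' : t + c < t' := ht'
  rw [← ENNReal.toReal_le_toReal (measure_ne_top _ _) (measure_ne_top _ _)]
  show F B l t ≤ F A l t'
  rcases (F_nonneg B l t).lt_or_eq with h0 | h0
  · have hle : F B l t ≤ v := by
      rw [← hvB]
      unfold F
      rw [dm_apply _ _ measurableSet_Iic]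
      exact ENNReal.toReal_mono hB.measure_ne_top (measure_mono Set.inter_subset_left)
    have h1 := qt_le hB l h0 (hle.trans hvB.ge) le_rfl
    obtain ⟨x, hx⟩ : ∃ x, x = Real.log (F B l t / v) := ⟨_, rfl⟩
    have hx0 : x ≤ 0 := by
      rw [hx]
      apply Real.log_nonpos (by positivity)
      rwa [div_le_one hv]
    have hex : v * Real.exp x = F B l t := by
      rw [hx, Real.exp_log (by positivity)]; field_simp
    have h2 := hd x hx0
    unfold lq at h2
    rw [hex] at h2
    exact F_ge_of_gt hA l h0 (hle.trans hvA.ge) (by linarith)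
  · rw [← h0]; exact F_nonneg _ _ _

/-- the distributions are translates of each other -/
theorem dm_shift {A B K : Set V} (hA : IsCompact A) (hB : IsCompact B) (hKc : IsCompact K)
    (hm : ∀ x ∈ A, ∀ y ∈ B, (1 / 2 : ℝ) • x + (1 / 2 : ℝ) • y ∈ K) (l : V →L[ℝ] ℝ) {v : ℝ}
    (hv : 0 < v) (hvA : (volume A).toReal = v) (hvB : (volume B).toReal = v)
    (hvK : (volume K).toReal ≤ v) : ∃ c : ℝ, dm A l = (dm B l).map (fun t => t + c) := by
  obtain ⟨c, hc⟩ : ∃ c, c = lq A l v 0 - lq B l v 0 := ⟨_, rfl⟩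
  have hd : ∀ x ≤ (0 : ℝ), lq A l v x = lq B l v x + c := fun x hx => by
    have := lq_diff hA hB hKc hm l hv hvA hvB hvK hx
    linarith
  have hd' : ∀ x ≤ (0 : ℝ), lq B l v x = lq A l v x + (-c) := fun x hx => by
    have := hd x hx
    linarith
  have := dm_finite hA l
  have := dm_finite hB l
  refine ⟨c, Measure.ext_of_Iic _ _ fun t => ?_⟩
  rw [Measure.map_apply (by fun_prop) measurableSet_Iic]
  have e : (fun t => t + c) ⁻¹' Set.Iic t = Set.Iic (t - c) := by
    ext x
    simp only [Set.mem_preimage, Set.mem_Iic]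
    constructor <;> intro h <;> linarith
  rw [e]
  apply le_antisymm
  · have h := F_shift hB hA l hv hvB hvA hd' t
    rwa [← sub_eq_add_neg] at h
  · have h := F_shift hA hB l hv hvA hvB hd (t - c)
    rwa [sub_add_cancel] at h

/-- the integral of the identity over a compact set -/
noncomputable def cen (A : Set V) : V := ∫ x in A, x

theorem int_dm {A : Set V} (hA : IsCompact A) (l : V →L[ℝ] ℝ) : ∫ t, t ∂(dm A l) = l (cen A) := by
  unfold dm cen
  rw [integral_map l.continuous.measurable.aemeasurable (by fun_prop)]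
  rw [← ContinuousLinearMap.integral_comp_comm]
  exact continuous_id.continuousOn.integrableOn_compact hA

theorem shift_const {A B : Set V} (hA : IsCompact A) (hB : IsCompact B) (l : V →L[ℝ] ℝ) {v : ℝ}
    (hv : 0 < v) (hvB : (volume B).toReal = v) {c : ℝ}
    (h : dm A l = (dm B l).map (fun t => t + c)) : c = l (v⁻¹ • (cen A - cen B)) := by
  have := dm_finite hB l
  have h1 := int_dm hA l
  have hint : Integrable (fun t : ℝ => t) (dm B l) := by
    unfold dm
    rw [integrable_map_measure (by fun_prop) l.continuous.measurable.aemeasurable]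
    exact l.continuous.continuousOn.integrableOn_compact hB
  rw [h, integral_map (by fun_prop) (by fun_prop), integral_add hint (integrable_const c),
    int_dm hB l, integral_const] at h1
  have h2 : (dm B l).real Set.univ = v := by
    rw [← hvB]
    show (dm B l Set.univ).toReal = _
    rw [dm_apply _ _ MeasurableSet.univ, Set.preimage_univ, Set.inter_univ]
  rw [h2, smul_eq_mul] at h1
  rw [map_smul, map_sub, ← h1, smul_eq_mul]
  field_simp
  ring

theorem incl {A B : Set V} (hA : Body A) (hB : Body B) (w : V)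
    (h : ∀ l : V →L[ℝ] ℝ, dm A l = (dm B l).map (fun t => t + l w)) : ∀ x ∈ A, x - w ∈ B := by
  intro x hx
  by_contra hxB
  obtain ⟨l, u, hu1, hu2⟩ := geometric_hahn_banach_closed_point hB.2.1 hB.1.isClosed hxB
  -- `B ⊆ {l < u}`, `u < l (x - w)`
  have h1 : dm A l (Set.Ioi (u + l w)) = 0 := by
    rw [h l, Measure.map_apply (by fun_prop) measurableSet_Ioi,
      dm_apply _ _ (measurableSet_Ioi.preimage (by fun_prop))]
    have : B ∩ l ⁻¹' ((fun t => t + l w) ⁻¹' Set.Ioi (u + l w)) = ∅ := by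
      rw [Set.eq_empty_iff_forall_notMem]
      rintro y ⟨hy, hy'⟩
      have h2 := hu1 y hy
      have h3 : u + l w < l y + l w := hy'
      linarith
    rw [this, measure_empty]
  rw [dm_apply _ _ measurableSet_Ioi] at h1
  have hxl : x ∈ l ⁻¹' Set.Ioi (u + l w) := by
    show u + l w < l x
    rw [map_sub] at hu2
    linarith
  have hxc : x ∈ closure (interior A) := by
    rw [hA.2.1.closure_interior_eq_closure_of_nonempty_interior hA.2.2]
    exact subset_closure hx
  have ho : IsOpen (l ⁻¹' Set.Ioi (u + l w)) := isOpen_Ioi.preimage l.continuous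
  obtain ⟨y, hy1, hy2⟩ := mem_closure_iff.1 hxc _ ho hxl
  have hpos : 0 < volume (l ⁻¹' Set.Ioi (u + l w) ∩ interior A) :=
    (ho.inter isOpen_interior).measure_pos volume ⟨y, hy1, hy2⟩
  have hle : volume (l ⁻¹' Set.Ioi (u + l w) ∩ interior A) ≤ volume (A ∩ l ⁻¹' Set.Ioi (u + l w)) :=
    measure_mono fun z hz => ⟨interior_subset hz.2, hz.1⟩
  rw [h1] at hle
  exact absurd hpos (not_lt.2 hle)

/-- **The equality case of the Brunn-Minkowski inequality.** -/
theorem bm_eq {A B K : Set V} (hA : Body A) (hB : Body B) (hKc : IsCompact K)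
    (hm : ∀ x ∈ A, ∀ y ∈ B, (1 / 2 : ℝ) • x + (1 / 2 : ℝ) • y ∈ K)
    (hAB : (volume A).toReal = (volume B).toReal) (hKA : (volume K).toReal ≤ (volume A).toReal) :
    ∃ w : V, A = (fun x => x + w) '' B := by
  obtain ⟨v, hv⟩ : ∃ v, v = (volume A).toReal := ⟨_, rfl⟩
  have hv0 : 0 < v := by
    rw [hv]
    apply ENNReal.toReal_pos _ hA.1.measure_ne_top
    exact (lt_of_lt_of_le (isOpen_interior.measure_pos volume hA.2.2)
      (measure_mono interior_subset)).ne'
  have hvB : (volume B).toReal = v := by rw [hv, hAB]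
  refine ⟨v⁻¹ • (cen A - cen B), ?_⟩
  have h1 : ∀ l : V →L[ℝ] ℝ, dm A l = (dm B l).map (fun t => t + l (v⁻¹ • (cen A - cen B))) := by
    intro l
    obtain ⟨c, hc⟩ := dm_shift hA.1 hB.1 hKc hm l hv0 hv.symm hvB (hKA.trans hv.ge)
    rw [← shift_const hA.1 hB.1 l hv0 hvB hc]
    exact hc
  have hm' : ∀ x ∈ B, ∀ y ∈ A, (1 / 2 : ℝ) • x + (1 / 2 : ℝ) • y ∈ K := fun x hx y hy => by
    rw [add_comm]; exact hm y hy x hx
  have h2 : ∀ l : V →L[ℝ] ℝ, dm B l = (dm A l).map (fun t => t + l (v⁻¹ • (cen B - cen A))) := by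
    intro l
    obtain ⟨c, hc⟩ := dm_shift hB.1 hA.1 hKc hm' l hv0 hvB hv.symm (hKA.trans hv.ge)
    rw [← shift_const hB.1 hA.1 l hv0 hv.symm hc]
    exact hc
  apply Set.Subset.antisymm
  · intro x hx
    exact ⟨x - v⁻¹ • (cen A - cen B), incl hA hB _ h1 x hx, by simp⟩
  · rintro _ ⟨y, hy, rfl⟩
    have h3 := incl hB hA _ h2 y hy
    have e : y - v⁻¹ • (cen B - cen A) = y + v⁻¹ • (cen A - cen B) := by module
    rwa [e] at h3

end Pool.Agent.Q232.CT
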