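import Pool.Agent.Q232.CT.Lim

/-!
# Contact points: double lattice packings
-/

namespace Pool.Agent.Q232.CT

open MeasureTheory Filter Topology
open scoped ENNReal
open Pool.Agent.H349R2.Tet Pool.Agent.TH219.DL

/-- double lattice packings -/
def DP (K : Set V) (v : V) (b : Fin 3 → V) : Prop :=
  Packs K b ∧ ∀ x ∈ interior K, ∀ y ∈ interior K, x + y - v ∉ lat b

theorem dp_iff (K : Set V) (v : V) (b : Fin 3 → V) :
    (LinearIndependent ℝ b ∧ IsPack K (famLs v b)) ↔ DP K v b := by
  constructor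
  · rintro ⟨hb, h⟩
    refine ⟨(packs_famL K b).1 ⟨hb, fun p hp q hq => h p (Or.inl hp) q (Or.inl hq)⟩,
      fun x hx y hy hs => ?_⟩
    have h1 := h (false, -(x + y - v)) (Or.inl ⟨rfl, lat_neg hs⟩) (true, v)
      (Or.inr ⟨rfl, 0, pack_zero_mem b, by simp⟩) (fun e => absurd (congrArg Prod.fst e) (by simp))
    rw [interior_mem, interior_mem, Set.disjoint_left] at h1
    apply h1 (a := v - y)
    · refine ⟨x, hx, ?_⟩
      simp only [Bool.false_eq_true, if_false]
      abel
    · refine ⟨y, hy, ?_⟩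
      simp only [if_true]
      abel
  · rintro ⟨hp, h⟩
    refine ⟨hp.1, famLs_pack ((packs_iff K b).1 hp).2 fun s hs => ?_⟩
    rw [Set.disjoint_left]
    intro X hX hX'
    rw [← mem_true, interior_mem] at hX'
    obtain ⟨y, hy, hyX⟩ := hX'
    have hyX' : -y + (v + s) = X := by simpa using hyX
    apply h X hX y hy
    have : X + y - v = s := by rw [← hyX']; abel
    rwa [this]

theorem limsup_add_le' (f g : ℝ → ℝ≥0∞) :
    limsup (fun r => f r + g r) atTop ≤ limsup f atTop + limsup g atTop := by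
  rcases eq_or_ne (limsup f atTop) ∞ with hf | hf
  · rw [hf, top_add]; exact le_top
  rcases eq_or_ne (limsup g atTop) ∞ with hg | hg
  · rw [hg, add_top]; exact le_top
  refine ENNReal.le_of_forall_pos_le_add fun ε hε _ => ?_
  have hε2 : (ε / 2 : ℝ≥0∞) ≠ 0 := (ENNReal.half_pos (by exact_mod_cast hε.ne')).ne'
  have h1 : ∀ᶠ r in atTop, f r < limsup f atTop + ε / 2 :=
    eventually_lt_of_limsup_lt (ENNReal.lt_add_right hf hε2)
  have h2 : ∀ᶠ r in atTop, g r < limsup g atTop + ε / 2 :=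
    eventually_lt_of_limsup_lt (ENNReal.lt_add_right hg hε2)
  refine limsup_le_of_le (by isBoundedDefault) ?_
  filter_upwards [h1, h2] with r h1 h2
  calc f r + g r ≤ (limsup f atTop + ε / 2) + (limsup g atTop + ε / 2) := add_le_add h1.le h2.le
    _ = limsup f atTop + limsup g atTop + (ε / 2 + ε / 2) := by ring
    _ = _ := by rw [ENNReal.add_halves]

theorem den_le (K : Set V) (v : V) (b : Fin 3 → V) :
    den K (famLs v b) ≤ dens K b + dens (rfl' K v) b := by
  unfold den dens
  refine le_trans ?_ (limsup_add_le' _ _)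
  apply limsup_le_limsup
  · apply Eventually.of_forall
    intro r
    show _ ≤ _ / _ + _ / _
    rw [← ENNReal.add_div]
    apply ENNReal.div_le_div_right
    let f : lat b ⊕ lat b → famLs v b := fun s =>
      match s with
      | Sum.inl u => ⟨(false, u.1), Or.inl ⟨rfl, u.2⟩⟩
      | Sum.inr u => ⟨(true, v + u.1), Or.inr ⟨rfl, u.1, u.2, rfl⟩⟩
    have hsur : Function.Surjective f := by
      rintro ⟨⟨s, c⟩, hp⟩
      rcases hp with ⟨hs, hc⟩ | ⟨hs, u, hu, hc⟩
      · have hs : s = false := hs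
        subst hs
        exact ⟨Sum.inl ⟨c, hc⟩, rfl⟩
      · refine ⟨Sum.inr ⟨u, hu⟩, Subtype.ext ?_⟩
        have hs' : s = true := hs
        have hc' : c = v + u := hc
        show (true, v + u) = (s, c)
        rw [hs', hc']
    calc ∑' p : famLs v b, volume (mem K p.1 ∩ Bl r)
        ≤ ∑' s : lat b ⊕ lat b, volume (mem K (f s).1 ∩ Bl r) :=
          ENNReal.tsum_le_tsum_comp_of_surjective hsur
            (fun p : famLs v b => volume (mem K p.1 ∩ Bl r))
      _ = _ := by
          rw [Summable.tsum_sum (f := fun s => volume (mem K (f s).1 ∩ Bl r))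
            ENNReal.summable ENNReal.summable]
          have e1 : ∀ u : lat b, volume (mem K (f (Sum.inl u)).1 ∩ Bl r)
              = volume (tr K u.1 ∩ Bl r) := by
            intro u
            show volume (mem K (false, u.1) ∩ Bl r) = _
            rw [mem_false]
          have e2 : ∀ u : lat b, volume (mem K (f (Sum.inr u)).1 ∩ Bl r)
              = volume (tr (rfl' K v) u.1 ∩ Bl r) := by
            intro u
            show volume (mem K (true, v + u.1) ∩ Bl r) = _
            rw [mem_true]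
          rw [tsum_congr e1, tsum_congr e2]
  · exact Filter.isCobounded_le_of_bot
  · exact Filter.isBounded_le_of_top

theorem den_eq {K : Set V} (hK : Body K) {v : V} {b : Fin 3 → V} (h : DP K v b) :
    den K (famLs v b) = 2 * (volume K / ENNReal.ofReal |dt b|) := by
  apply le_antisymm
  · refine (den_le K v b).trans (le_of_eq ?_)
    rw [dens_eq b h.1.1 K hK.1, dens_eq b h.1.1 _ (rfl_compact hK.1 v),
      vol_rfl hK.1.measurableSet, two_mul]
  · refine le_trans (le_of_eq ?_) (den_famLs K v b)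
    have hc : IsCompact (K ∪ rfl' K v) := hK.1.union (rfl_compact hK.1 v)
    rw [dens_eq b h.1.1 _ hc]
    have hvol : volume (K ∪ rfl' K v) = 2 * volume K := by
      apply le_antisymm
      · refine (measure_union_le _ _).trans (le_of_eq ?_)
        rw [vol_rfl hK.1.measurableSet, two_mul]
      · have hi : interior (rfl' K v) = rfl' (interior K) v := by
          have h1 : ∀ S : Set V, rfl' S v = (Homeomorph.subLeft v) '' S := fun S => rfl
          rw [h1, h1, Homeomorph.image_interior]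
        calc 2 * volume K = volume (interior K) + volume (interior (rfl' K v)) := by
              rw [hi, vol_rfl isOpen_interior.measurableSet, vol_int hK.2.1, two_mul]
          _ = volume (interior K ∪ interior (rfl' K v)) := by
              rw [measure_union _ isOpen_interior.measurableSet]
              rw [hi, Set.disjoint_left]
              rintro X hX ⟨y, hy, rfl⟩
              apply h.2 _ hX y hy
              have : v - y + y - v = 0 := by abel
              rw [this]
              exact pack_zero_mem b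
          _ ≤ _ := measure_mono (Set.union_subset_union interior_subset interior_subset)
    rw [hvol, mul_div_assoc]

theorem dLs_eq (K : Set V) :
    dLs K = ⨆ (v : V) (b : Fin 3 → V) (_ : DP K v b), den K (famLs v b) := by
  unfold dLs
  refine iSup_congr fun v => iSup_congr fun b => ?_
  exact iSup_congr_Prop (dp_iff K v b) fun _ => rfl

theorem dLs_ge {K : Set V} {v : V} {b : Fin 3 → V} (h : DP K v b) :
    den K (famLs v b) ≤ dLs K := by
  rw [dLs_eq]
  exact le_iSup_of_le v (le_iSup₂_of_le b h le_rfl)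

theorem dLs_pos {K : Set V} (hK : Body K) : 0 < dLs K :=
  lt_of_lt_of_le (by rw [ENNReal.ofReal_pos]; norm_num) (dLs_low hK)

theorem dLs_lt_top {K : Set V} (hK : Body K) : dLs K < ∞ := by
  have h : dLs K ≤ 2 * dL K := by
    rw [dLs_eq]
    refine iSup_le fun v => iSup₂_le fun b hb => ?_
    rw [den_eq hK hb]
    gcongr
    rw [← dens_eq b hb.1.1 K hK.1, dL_eq]
    exact le_iSup₂_of_le b hb.1 le_rfl
  exact lt_of_le_of_lt h (ENNReal.mul_lt_top (by norm_num) (dL_lt_top hK))

/-- a double lattice packing of the cut body which is denser than all those of the body -/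
theorem exists_denser' {K : Set V} (hK : Body K) {p : V} (hp : p ∈ K.extremePoints ℝ) {ε : ℝ}
    (hε : 0 < ε) (hcut : Body (cut K p ε)) (hmin : dLs K ≤ dLs (cut K p ε)) :
    ∃ v b, DP (cut K p ε) v b ∧ ∀ v' b', DP K v' b' → |dt b| < |dt b'| := by
  have hv := vol_cut_lt hK hp hε
  have hvK0 : volume K ≠ 0 := (lt_of_le_of_lt bot_le hv).ne'
  have hvKt : volume K ≠ ∞ := hK.1.measure_lt_top.ne
  have h1 : volume (cut K p ε) / volume K * dLs K < dLs (cut K p ε) := by
    refine lt_of_lt_of_le ?_ hmin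
    have h2 : volume (cut K p ε) / volume K < 1 :=
      (ENNReal.div_lt_iff (Or.inl hvK0) (Or.inl hvKt)).2 (by rwa [one_mul])
    calc volume (cut K p ε) / volume K * dLs K < 1 * dLs K :=
          ENNReal.mul_lt_mul_left (dLs_pos hK).ne' (dLs_lt_top hK).ne h2
      _ = dLs K := one_mul _
  rw [dLs_eq (cut K p ε)] at h1
  obtain ⟨v, h1⟩ := lt_iSup_iff.1 h1
  obtain ⟨b, h1⟩ := lt_iSup_iff.1 h1
  obtain ⟨hb, h1⟩ := lt_iSup_iff.1 h1
  refine ⟨v, b, hb, fun v' b' hb' => ?_⟩
  by_contra hcon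
  push Not at hcon
  apply absurd h1
  rw [not_lt, den_eq hcut hb]
  have h3 : 2 * (volume K / ENNReal.ofReal |dt b'|) ≤ dLs K := by
    rw [← den_eq hK hb']
    exact dLs_ge hb'
  calc 2 * (volume (cut K p ε) / ENNReal.ofReal |dt b|)
      ≤ 2 * (volume (cut K p ε) / ENNReal.ofReal |dt b'|) := by
        gcongr
    _ = volume (cut K p ε) / volume K * (2 * (volume K / ENNReal.ofReal |dt b'|)) := by
        rw [mul_left_comm]
        congr 1
        rw [div_eq_mul_inv, div_eq_mul_inv, div_eq_mul_inv, mul_assoc, ← mul_assoc (volume K)⁻¹,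
          ENNReal.inv_mul_cancel hvK0 hvKt, one_mul]
    _ ≤ _ := by gcongr

/-- the member which touches the part cut off -/
theorem exists_touch' {K : Set V} {p : V} {ε : ℝ} {v : V} {b : Fin 3 → V}
    (hb : DP (cut K p ε) v b) (hn : ¬ DP K v b) :
    (∃ u ∈ lat b, u ≠ 0 ∧ ∃ x ∈ K, x - u ∈ K ∧ dist x p < ε) ∨
    (∃ s ∈ lat b, ∃ x ∈ K, v + s - x ∈ K ∧ dist x p < ε) := by
  by_cases hP : Packs K b
  · right
    have hn' : ∃ x ∈ interior K, ∃ y ∈ interior K, x + y - v ∈ lat b := by
      by_contra h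
      push Not at h
      exact hn ⟨hP, h⟩
    obtain ⟨x0, hx0, y0, hy0, hs⟩ := hn'
    obtain ⟨s, hss⟩ : ∃ s, s = x0 + y0 - v := ⟨_, rfl⟩
    rw [← hss] at hs
    have hy0' : v + s - x0 = y0 := by rw [hss]; abel
    have hWo : IsOpen (interior K ∩ (fun x : V => v + s - x) ⁻¹' interior K) :=
      isOpen_interior.inter (isOpen_interior.preimage (by fun_prop))
    by_cases hall : ∀ x ∈ interior K ∩ (fun x : V => v + s - x) ⁻¹' interior K,
        x ∈ cut K p ε ∧ v + s - x ∈ cut K p ε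
    · exfalso
      apply hb.2 x0 _ y0 _ (by rw [← hss]; exact hs)
      · exact interior_maximal (fun x hx => (hall x hx).1) hWo ⟨hx0, by
          show v + s - x0 ∈ interior K
          rw [hy0']; exact hy0⟩
      · have hWo' : IsOpen ((fun x : V => v + s - x) ⁻¹'
            (interior K ∩ (fun x : V => v + s - x) ⁻¹' interior K)) :=
          hWo.preimage (by fun_prop)
        refine interior_maximal (fun y hy => ?_) hWo' ?_
        · have := (hall (v + s - y) hy).2
          rwa [sub_sub_cancel] at this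
        · show v + s - y0 ∈ interior K ∩ (fun x : V => v + s - x) ⁻¹' interior K
          have e : v + s - y0 = x0 := by rw [← hy0']; abel
          rw [e]
          exact ⟨hx0, by show v + s - x0 ∈ interior K; rw [hy0']; exact hy0⟩
    · push Not at hall
      obtain ⟨x, ⟨hx, hx'⟩, hnot⟩ := hall
      by_cases hxc : x ∈ cut K p ε
      · have h1 := hnot hxc
        refine ⟨s, hs, v + s - x, interior_subset hx', ?_, ?_⟩
        · rw [sub_sub_cancel]; exact interior_subset hx
        · by_contra h2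
          exact h1 (mem_cut (interior_subset hx') (not_lt.1 h2))
      · refine ⟨s, hs, x, interior_subset hx, interior_subset hx', ?_⟩
        by_contra h2
        exact hxc (mem_cut (interior_subset hx) (not_lt.1 h2))
  · left
    exact exists_touch hb.1 hP

theorem dp_congr {A : Set V} {v : V} {b b' : Fin 3 → V} (h : lat b' = lat b)
    (hd : |dt b'| = |dt b|) (hp : DP A v b) : DP A v b' :=
  ⟨packs_congr h hd hp.1, by rw [h]; exact hp.2⟩

/-- reduced shift -/
theorem dp_shift {A : Set V} {v : V} {b : Fin 3 → V} (hp : DP A v b) {M : ℝ}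
    (hM : ∀ i, ‖b i‖ ≤ M) : ∃ v', DP A v' b ∧ ‖v'‖ ≤ 2 * M ∧ (∀ w, DP w v' b ↔ DP w v b) := by
  have hM0 : 0 ≤ M := (norm_nonneg _).trans (hM 0)
  let B := basisOfLinearIndependentOfCardEqFinrank hp.1.1 (by simp)
  have hB : ∀ i, B i = b i := fun i => by simp [B]
  have hv : v = ∑ i, B.repr v i • b i := by
    conv_lhs => rw [← B.sum_repr v]
    exact Finset.sum_congr rfl fun i _ => by rw [hB]
  obtain ⟨s, hs⟩ : ∃ s, s = ∑ i, ((round (B.repr v i) : ℤ) : ℝ) • b i := ⟨_, rfl⟩
  have hsl : s ∈ lat b := ⟨_, hs⟩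
  have key : ∀ w, DP w (v - s) b ↔ DP w v b := by
    intro w
    refine and_congr_right fun _ => ?_
    refine forall₄_congr fun x _ y _ => ?_
    have e1 : x + y - (v - s) = x + y - v + s := by abel
    rw [e1]
    refine not_congr ⟨fun h => ?_, fun h => lat_add h hsl⟩
    have := pack_sub_mem h hsl
    rwa [add_sub_cancel_right] at this
  refine ⟨v - s, (key A).2 hp, ?_, key⟩
  have e : v - s = ∑ i, (B.repr v i - round (B.repr v i)) • b i := by
    calc v - s = (∑ i, B.repr v i • b i) - s := by rw [← hv]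
      _ = _ := by
        rw [hs, ← Finset.sum_sub_distrib]
        exact Finset.sum_congr rfl fun i _ => by rw [sub_smul]
  rw [e]
  calc ‖∑ i, (B.repr v i - round (B.repr v i)) • b i‖
      ≤ ∑ i, ‖(B.repr v i - round (B.repr v i)) • b i‖ := norm_sum_le _ _
    _ ≤ ∑ _i : Fin 3, 1 / 2 * M := by
        apply Finset.sum_le_sum
        intro i _
        rw [norm_smul, Real.norm_eq_abs]
        exact mul_le_mul (abs_sub_round _) (hM i) (norm_nonneg _) (by norm_num)
    _ = 3 / 2 * M := by simp; ring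
    _ ≤ 2 * M := by linarith

/-- limits of double packings -/
theorem lim_dp {K : Set V} {p : V} {ε : ℕ → ℝ}
    (hε : Tendsto ε atTop (𝓝 0)) {b : ℕ → Fin 3 → V} {b0 : Fin 3 → V}
    (hb : Tendsto b atTop (𝓝 b0)) (h0 : dt b0 ≠ 0) {v : ℕ → V} {v0 : V}
    (hv : Tendsto v atTop (𝓝 v0))
    (hp : ∀ n, DP (cut K p (ε n)) (v n) (b n)) : DP K v0 b0 := by
  refine ⟨lim_packs hε hb h0 fun n => (hp n).1, fun x hx y hy hs => ?_⟩
  obtain ⟨s, hss⟩ : ∃ s, s = x + y - v0 := ⟨_, rfl⟩
  rw [← hss] at hs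
  have hy' : v0 + s - x = y := by rw [hss]; abel
  have hWo : IsOpen (interior K ∩ (fun x : V => v0 + s - x) ⁻¹' interior K) :=
    isOpen_interior.inter (isOpen_interior.preimage (by fun_prop))
  obtain ⟨y, hy, hyp, hyp'⟩ := avoid hWo ⟨x, hx, by
    show v0 + s - x ∈ interior K
    rw [hy']; exact hy⟩ p (v0 + s - p)
  have hyu : v0 + s - y ≠ p := fun h => hyp' (by rw [← h]; abel)
  obtain ⟨r1, hr1, h1⟩ := Metric.isOpen_iff.1 isOpen_interior y hy.1
  obtain ⟨r2, hr2, h2⟩ := Metric.isOpen_iff.1 isOpen_interior (v0 + s - y) hy.2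
  obtain ⟨ρ, hρ⟩ : ∃ ρ, ρ = min (min r1 r2) (min (dist y p / 2) (dist (v0 + s - y) p / 2)) :=
    ⟨_, rfl⟩
  have hρ0 : 0 < ρ := by
    rw [hρ]
    exact lt_min (lt_min hr1 hr2) (lt_min (half_pos (dist_pos.2 hyp)) (half_pos (dist_pos.2 hyu)))
  have hρ1 : ρ ≤ r1 := by rw [hρ]; exact (min_le_left _ _).trans (min_le_left _ _)
  have hρ2 : ρ ≤ r2 := by rw [hρ]; exact (min_le_left _ _).trans (min_le_right _ _)
  have hρ3 : ρ ≤ dist y p / 2 := by rw [hρ]; exact (min_le_right _ _).trans (min_le_left _ _)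
  have hρ4 : ρ ≤ dist (v0 + s - y) p / 2 := by
    rw [hρ]; exact (min_le_right _ _).trans (min_le_right _ _)
  obtain ⟨z, hz⟩ := hs
  have hun : Tendsto (fun n => v n + (∑ i, ((z i : ℤ) : ℝ) • b n i) - y) atTop
      (𝓝 (v0 + s - y)) := by
    rw [hz]
    refine (hv.add ?_).sub tendsto_const_nhds
    apply tendsto_finsetSum
    intro i _
    exact tendsto_const_nhds.smul ((continuous_apply i).tendsto b0 |>.comp hb)
  have e1 : ∀ᶠ n in atTop, ε n < ρ := hε.eventually (gt_mem_nhds hρ0)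
  have e2 := hun.eventually (Metric.ball_mem_nhds _ hρ0)
  obtain ⟨n, h3, h4⟩ := (e1.and e2).exists
  have hb1 : Metric.ball y ρ ⊆ interior (cut K p (ε n)) :=
    interior_maximal (ball_cut ((Metric.ball_subset_ball hρ1).trans (h1.trans interior_subset))
      (by linarith)) Metric.isOpen_ball
  have hb2 : Metric.ball (v0 + s - y) ρ ⊆ interior (cut K p (ε n)) :=
    interior_maximal (ball_cut ((Metric.ball_subset_ball hρ2).trans (h2.trans interior_subset))
      (by linarith)) Metric.isOpen_ball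
  refine (hp n).2 y (hb1 (Metric.mem_ball_self hρ0)) _ (hb2 h4) ⟨z, ?_⟩
  abel

/-- the limit argument for one kind of contact; `k n` is the touching configuration -/
theorem contact_lim {K : Set V} (hK : Body K) {p : V} {r M : ℝ} (hr : 0 < r) (hM0 : 0 ≤ M)
    {ε : ℕ → ℝ} (hεt : Tendsto ε atTop (𝓝 0)) (b : ℕ → Fin 3 → V) (v u x : ℕ → V)
    (h1 : ∀ n, DP (cut K p (ε n)) (v n) (b n))
    (h2 : ∀ n v' b', DP K v' b' → |dt (b n)| ≤ |dt b'|)
    (h3 : ∀ n i, ‖b n i‖ ≤ M) (h3' : ∀ n, ‖v n‖ ≤ 2 * M) (h4 : ∀ n, (r ^ 2) ^ 3 ≤ 8 * dt (b n) ^ 2)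
    (h5 : ∀ n, u n ∈ lat (b n)) (h7 : ∀ n, x n ∈ K)
    (h8 : (∀ n, x n - u n ∈ K ∧ r ≤ ‖u n‖) ∨ ∀ n, v n + u n - x n ∈ K)
    (h9 : ∀ n, dist (x n) p < ε n) :
    ∃ v0 b0, DP K v0 b0 ∧ (∀ v' b', DP K v' b' → |dt b0| ≤ |dt b'|) ∧ ∃ u0 ∈ lat b0,
      (u0 ≠ 0 ∧ p - u0 ∈ K) ∨ v0 + u0 - p ∈ K := by
  obtain ⟨R, hR⟩ := hK.1.isBounded.subset_closedBall (0 : V)
  have hR0 : 0 ≤ R := by
    have := hR (h7 0)
    rw [mem_closedBall_zero_iff] at this
    exact (norm_nonneg _).trans this
  obtain ⟨S, hS⟩ : ∃ S, S = 2 * M + 2 * R := ⟨_, rfl⟩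
  have hbd : ∀ n, ((b n, v n, u n, x n) : (Fin 3 → V) × V × V × V) ∈ Metric.closedBall
      (0 : (Fin 3 → V) × V × V × V) S := by
    intro n
    rw [mem_closedBall_zero_iff]
    have hS0 : 0 ≤ S := by rw [hS]; positivity
    have hx : ‖x n‖ ≤ R := mem_closedBall_zero_iff.1 (hR (h7 n))
    rw [Prod.norm_def, Prod.norm_def, Prod.norm_def]
    refine max_le ?_ (max_le ?_ (max_le ?_ ?_))
    · rw [pi_norm_le_iff_of_nonneg hS0]
      intro i
      refine (h3 n i).trans ?_
      rw [hS]; linarith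
    · show ‖v n‖ ≤ S
      refine (h3' n).trans ?_
      rw [hS]; linarith
    · show ‖u n‖ ≤ S
      rcases h8 with h8 | h8
      · have hxu : ‖x n - u n‖ ≤ R := mem_closedBall_zero_iff.1 (hR (h8 n).1)
        have e : u n = x n - (x n - u n) := by abel
        rw [e]
        calc ‖x n - (x n - u n)‖ ≤ ‖x n‖ + ‖x n - u n‖ := norm_sub_le _ _
          _ ≤ S := by rw [hS]; linarith
      · have hxu : ‖v n + u n - x n‖ ≤ R := mem_closedBall_zero_iff.1 (hR (h8 n))
        have e : u n = (v n + u n - x n) + x n - v n := by abel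
        rw [e]
        calc ‖(v n + u n - x n) + x n - v n‖ ≤ ‖(v n + u n - x n) + x n‖ + ‖v n‖ := norm_sub_le _ _
          _ ≤ (‖v n + u n - x n‖ + ‖x n‖) + ‖v n‖ := by gcongr; exact norm_add_le _ _
          _ ≤ S := by rw [hS]; have := h3' n; linarith
    · show ‖x n‖ ≤ S
      refine hx.trans ?_
      rw [hS]
      linarith
  obtain ⟨⟨b0, v0, u0, x0⟩, -, φ, hφ, hlim⟩ :=
    (isCompact_closedBall (0 : (Fin 3 → V) × V × V × V) S).tendsto_subseq hbd
  have hlb : Tendsto (fun n => b (φ n)) atTop (𝓝 b0) :=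
    (continuous_fst.tendsto _).comp hlim
  have hlv : Tendsto (fun n => v (φ n)) atTop (𝓝 v0) :=
    ((continuous_fst.comp continuous_snd).tendsto _).comp hlim
  have hlu : Tendsto (fun n => u (φ n)) atTop (𝓝 u0) :=
    ((continuous_fst.comp (continuous_snd.comp continuous_snd)).tendsto _).comp hlim
  have hlx : Tendsto (fun n => x (φ n)) atTop (𝓝 x0) :=
    ((continuous_snd.comp (continuous_snd.comp continuous_snd)).tendsto _).comp hlim
  have hle : Tendsto (fun n => ε (φ n)) atTop (𝓝 0) := hεt.comp hφ.tendsto_atTop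
  have hld : Tendsto (fun n => dt (b (φ n))) atTop (𝓝 (dt b0)) :=
    (continuous_dt.tendsto b0).comp hlb
  have hdt0 : dt b0 ≠ 0 := by
    intro h0
    have h10 : Tendsto (fun n => 8 * dt (b (φ n)) ^ 2) atTop (𝓝 (8 * dt b0 ^ 2)) :=
      (hld.pow 2).const_mul 8
    have h11 := ge_of_tendsto h10 (Eventually.of_forall fun n => h4 (φ n))
    rw [h0] at h11
    have : 0 < (r ^ 2) ^ 3 := by positivity
    linarith
  have hx0 : x0 = p := by
    have h10 : Tendsto (fun n => dist (x (φ n)) p) atTop (𝓝 0) :=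
      squeeze_zero (fun _ => dist_nonneg) (fun n => (h9 (φ n)).le) hle
    exact tendsto_nhds_unique hlx (tendsto_iff_dist_tendsto_zero.2 h10)
  refine ⟨v0, b0, lim_dp hle hlb hdt0 hlv fun n => h1 (φ n), fun v' b' hb' => ?_, u0,
    lim_mem hlb hlu hdt0 fun n => h5 (φ n), ?_⟩
  · exact le_of_tendsto hld.abs (Eventually.of_forall fun n => h2 (φ n) v' b' hb')
  · rcases h8 with h8 | h8
    · left
      refine ⟨?_, ?_⟩
      · have h10 : r ≤ ‖u0‖ := ge_of_tendsto hlu.norm (Eventually.of_forall fun n => (h8 (φ n)).2)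
        intro h0
        rw [h0, norm_zero] at h10
        linarith
      · rw [← hx0]
        exact hK.1.isClosed.mem_of_tendsto (hlx.sub hlu)
          (Eventually.of_forall fun n => (h8 (φ n)).1)
    · right
      rw [← hx0]
      exact hK.1.isClosed.mem_of_tendsto ((hlv.add hlu).sub hlx)
        (Eventually.of_forall fun n => h8 (φ n))

/-- **Contact theorem for double lattice packings.** -/
theorem contact' {K : Set V} (hK : Body K) (hmin : LocMin dLs K) {p : V}
    (hp : p ∈ K.extremePoints ℝ) :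
    ∃ v0 b0, DP K v0 b0 ∧ (∀ v' b', DP K v' b' → |dt b0| ≤ |dt b'|) ∧ ∃ u0 ∈ lat b0,
      (u0 ≠ 0 ∧ p - u0 ∈ K) ∨ v0 + u0 - p ∈ K := by
  obtain ⟨ε0, hε0, hloc⟩ := hmin
  obtain ⟨c, r, hr, hc, hd⟩ := good_ball hK p
  obtain ⟨s, hs⟩ : ∃ s, s = min (ε0 / 2) r := ⟨_, rfl⟩
  have hs0 : 0 < s := by rw [hs]; exact lt_min (by positivity) hr
  let ε : ℕ → ℝ := fun n => s / (n + 1)
  have hεpos : ∀ n, 0 < ε n := fun n => by positivity
  have hεs : ∀ n, ε n ≤ s := fun n => by
    apply div_le_self hs0.le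
    have : (0 : ℝ) ≤ n := n.cast_nonneg
    linarith
  have hεr : ∀ n, ε n ≤ r := fun n => (hεs n).trans (by rw [hs]; exact min_le_right _ _)
  have hεt : Tendsto ε atTop (𝓝 0) := by
    have := tendsto_one_div_add_atTop_nhds_zero_nat (𝕜 := ℝ)
    have h2 := this.const_mul s
    simpa [ε, div_eq_mul_inv] using h2
  have hbody : ∀ n, Body (cut K p (ε n)) := fun n => cut_body hK hr hc hd (hεr n)
  have hmn : ∀ n, dLs K ≤ dLs (cut K p (ε n)) := fun n =>
    hloc _ (hbody n) (cut_sub hK.2.1 p _) fun x hx => by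
      obtain ⟨y, hy, hxy⟩ := cut_near hK hp.1 hr hc hd (hεpos n) (hεr n) x hx
      refine ⟨y, hy, hxy.trans ?_⟩
      have h1 := hεs n
      have h2 : s ≤ ε0 / 2 := by rw [hs]; exact min_le_left _ _
      linarith
  obtain ⟨vK, bK, hbK⟩ : ∃ vK bK, DP K vK bK := by
    by_contra h
    push Not at h
    have h1 := dLs_pos hK
    rw [dLs_eq] at h1
    obtain ⟨v, h1⟩ := lt_iSup_iff.1 h1
    obtain ⟨b, h1⟩ := lt_iSup_iff.1 h1
    obtain ⟨hb, -⟩ := lt_iSup_iff.1 h1
    exact h v b hb
  obtain ⟨M, hM⟩ : ∃ M, M = √(8 * dt bK ^ 2 / (r ^ 2) ^ 2) := ⟨_, rfl⟩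
  have hM0 : 0 ≤ M := by rw [hM]; exact Real.sqrt_nonneg _
  have hstep : ∀ n, ∃ (b : Fin 3 → V) (v u x : V), DP (cut K p (ε n)) v b ∧
      (∀ v' b', DP K v' b' → |dt b| ≤ |dt b'|) ∧ (∀ i, ‖b i‖ ≤ M) ∧ ‖v‖ ≤ 2 * M ∧
      (r ^ 2) ^ 3 ≤ 8 * dt b ^ 2 ∧ u ∈ lat b ∧ x ∈ K ∧
      ((x - u ∈ K ∧ r ≤ ‖u‖) ∨ v + u - x ∈ K) ∧ dist x p < ε n := by
    intro n
    obtain ⟨v, b, hb, hbm⟩ := exists_denser' hK hp (hεpos n) (hbody n) (hmn n)
    have hcc : Metric.ball c r ⊆ cut K p (ε n) := ball_cut hc (by linarith [hεr n])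
    obtain ⟨b', h1, h2, h3, h4⟩ := packs_reduced hb.1 hr hcc
    have hb' : DP (cut K p (ε n)) v b' := dp_congr h1 h2 hb
    have hbn : ∀ i, ‖b' i‖ ≤ M := by
      intro i
      rw [hM]
      refine Real.le_sqrt_of_sq_le ((h3 i).trans ?_)
      apply div_le_div_of_nonneg_right _ (by positivity)
      have h5 : dt b ^ 2 ≤ dt bK ^ 2 := by
        rw [← sq_abs, ← sq_abs (dt bK)]
        exact pow_le_pow_left₀ (abs_nonneg _) (hbm vK bK hbK).le 2
      linarith
    obtain ⟨v', hv', hvn, -⟩ := dp_shift hb' hbn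
    have hnK : ¬ DP K v' b' := fun h => absurd (hbm v' b' h) (by rw [h2]; exact lt_irrefl _)
    have hdd : dt b' ^ 2 = dt b ^ 2 := by rw [← sq_abs, h2, sq_abs]
    rcases exists_touch' hv' hnK with ⟨u, hu, hu0, x, hx, hxu, hxp⟩ | ⟨u, hu, x, hx, hxu, hxp⟩
    · refine ⟨b', v', u, x, hv', fun v'' b'' h => ?_, hbn, hvn, ?_, hu, hx,
        Or.inl ⟨hxu, min_norm hv'.1 hr hcc hu hu0⟩, hxp⟩
      · rw [h2]; exact (hbm v'' b'' h).le
      · rw [hdd]; exact h4
    · refine ⟨b', v', u, x, hv', fun v'' b'' h => ?_, hbn, hvn, ?_, hu, hx, Or.inr hxu, hxp⟩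
      · rw [h2]; exact (hbm v'' b'' h).le
      · rw [hdd]; exact h4
  choose b v u x h1 h2 h3 h3' h4 h5 h7 h8 h9 using hstep
  have hfreq : (∃ᶠ n in atTop, x n - u n ∈ K ∧ r ≤ ‖u n‖) ∨
      (∃ᶠ n in atTop, v n + u n - x n ∈ K) := by
    rw [← Filter.frequently_or_distrib]
    exact (Eventually.of_forall h8).frequently
  rcases hfreq with hf | hf
  · obtain ⟨φ, hφ, hφ'⟩ := extraction_of_frequently_atTop hf
    exact contact_lim hK hr hM0 (hεt.comp hφ.tendsto_atTop) (fun n => b (φ n)) (fun n => v (φ n))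
      (fun n => u (φ n)) (fun n => x (φ n)) (fun n => h1 _) (fun n => h2 _) (fun n => h3 _)
      (fun n => h3' _) (fun n => h4 _) (fun n => h5 _) (fun n => h7 _) (Or.inl hφ') (fun n => h9 _)
  · obtain ⟨φ, hφ, hφ'⟩ := extraction_of_frequently_atTop hf
    exact contact_lim hK hr hM0 (hεt.comp hφ.tendsto_atTop) (fun n => b (φ n)) (fun n => v (φ n))
      (fun n => u (φ n)) (fun n => x (φ n)) (fun n => h1 _) (fun n => h2 _) (fun n => h3 _)
      (fun n => h3' _) (fun n => h4 _) (fun n => h5 _) (fun n => h7 _) (Or.inr hφ') (fun n => h9 _)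

/-- the family of the densest double lattice packings -/
def DensestDouble (K : Set V) : Set (Set (Bool × V)) :=
  {S | ∃ (v : V) (b : Fin 3 → V), S = famLs v b ∧ LinearIndependent ℝ b ∧ IsPack K (famLs v b) ∧
    den K (famLs v b) = dLs K}

theorem densest_of' {K : Set V} (hK : Body K) {v : V} {b : Fin 3 → V} (hb : DP K v b)
    (hm : ∀ v' b', DP K v' b' → |dt b| ≤ |dt b'|) :
    LinearIndependent ℝ b ∧ IsPack K (famLs v b) ∧ den K (famLs v b) = dLs K := by
  have h := (dp_iff K v b).2 hb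
  refine ⟨h.1, h.2, ?_⟩
  refine le_antisymm (dLs_ge hb) ?_
  rw [dLs_eq]
  refine iSup_le fun v' => iSup₂_le fun b' hb' => ?_
  rw [den_eq hK hb, den_eq hK hb']
  exact mul_le_mul_right (ENNReal.div_le_div_left (ENNReal.ofReal_le_ofReal (hm v' b' hb')) _) 2

/-- the extreme points lie on other members -/
theorem touches {K : Set V} (hK : Body K) (hmin : LocMin dLs K) {p : V}
    (hp : p ∈ K.extremePoints ℝ) : ∃ (v : V) (b : Fin 3 → V),
      (LinearIndependent ℝ b ∧ IsPack K (famLs v b) ∧ den K (famLs v b) = dLs K) ∧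
      ∃ m ∈ famLs v b, m ≠ (false, 0) ∧ p ∈ mem K m := by
  obtain ⟨v, b, h1, h2, u, hu, h3⟩ := contact' hK hmin hp
  refine ⟨v, b, densest_of' hK h1 h2, ?_⟩
  rcases h3 with ⟨h3, h4⟩ | h3
  · exact ⟨(false, u), Or.inl ⟨rfl, hu⟩, fun e => h3 (congrArg Prod.snd e), p - u, h4, by simp⟩
  · refine ⟨(true, v + u), Or.inr ⟨rfl, u, hu, rfl⟩,
      fun e => absurd (congrArg Prod.fst e) (by simp), v + u - p, h3, by simp⟩

theorem famLs_countable (v : V) (b : Fin 3 → V) : (famLs v b).Countable := by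
  have h : famLs v b ⊆ ((fun u => (false, u)) '' lat b) ∪ ((fun u => (true, v + u)) '' lat b) := by
    rintro ⟨s, c⟩ (⟨hs, hc⟩ | ⟨hs, u, hu, hc⟩)
    · have hs : s = false := hs
      subst hs
      exact Or.inl ⟨c, hc, rfl⟩
    · have hs : s = true := hs
      have hc : c = v + u := hc
      subst hs hc
      exact Or.inr ⟨u, hu, rfl⟩
  exact Set.Countable.mono h (((lat_countable b).image _).union ((lat_countable b).image _))

/-- strictly convex local minima have uncountably many densest double lattice packings -/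
theorem uncountable' {K : Set V} (hK : Body K) (hmin : LocMin dLs K) (hs : StrictConvex ℝ K) :
    ¬ (DensestDouble K).Countable := by
  intro hcount
  have hext : frontier K ⊆ K.extremePoints ℝ := by
    intro x hx
    have hxK : x ∈ K := hK.1.isClosed.frontier_subset hx
    have hxi : x ∉ interior K := fun h => (disjoint_interior_frontier (s := K)).le_bot ⟨h, hx⟩
    rw [mem_extremePoints]
    refine ⟨hxK, fun y hy z hz hxs => ?_⟩
    by_contra hne
    have hyz : y ≠ z := by
      rintro rfl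
      rw [openSegment_same] at hxs
      exact hne ⟨hxs.symm, hxs.symm⟩
    exact hxi (hs.openSegment_subset hy hz hyz hxs)
  have hsub : frontier K ⊆ ⋃ S ∈ DensestDouble K,
      ⋃ m ∈ {m | m ∈ S ∧ Disjoint (interior K) (interior (mem K m))}, {x | x ∈ K ∧ x ∈ mem K m} := by
    intro p hp
    have hpe := hext hp
    obtain ⟨v, b, h, m, hm, hm0, hpm⟩ := touches hK hmin hpe
    rw [Set.mem_iUnion₂]
    refine ⟨famLs v b, ⟨v, b, rfl, h⟩, ?_⟩
    rw [Set.mem_iUnion₂]
    refine ⟨m, ⟨hm, ?_⟩, hpe.1, hpm⟩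
    have h0 : mem K (false, 0) = K := by
      rw [mem_false]; unfold tr; simp
    have h1 := h.2.1 (false, 0) (Or.inl ⟨rfl, pack_zero_mem b⟩) m hm (Ne.symm hm0)
    rwa [h0] at h1
  have hfc : (frontier K).Countable := by
    refine Set.Countable.mono hsub (hcount.biUnion fun L hL => ?_)
    obtain ⟨v, b, rfl, -⟩ := hL
    refine Set.Countable.biUnion ((famLs_countable v b).mono fun u hu => hu.1) fun m hm => ?_
    refine Set.Subsingleton.countable ?_
    intro x hx y hy
    by_contra hxy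
    have hd := hm.2
    rw [interior_mem, Set.disjoint_left] at hd
    have hmid : (1 / 2 : ℝ) • x + (1 / 2 : ℝ) • y ∈ interior K :=
      hs hx.1 hy.1 hxy (by norm_num) (by norm_num) (by norm_num)
    apply hd hmid
    obtain ⟨x', hx', ex⟩ := hx.2
    obtain ⟨y', hy', ey⟩ := hy.2
    have hne : x' ≠ y' := by
      rintro rfl
      exact hxy (ex.symm.trans ey)
    refine ⟨(1 / 2 : ℝ) • x' + (1 / 2 : ℝ) • y',
      hs hx' hy' hne (by norm_num) (by norm_num) (by norm_num), ?_⟩
    rw [← ex, ← ey]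
    obtain ⟨s, c⟩ := m
    cases s
    · simp only [Bool.false_eq_true, if_false]
      module
    · simp only [if_true]
      module
  have hrank : 1 < Module.rank ℝ V := by
    rw [rank_fin_fun]
    norm_num
  have hconn := (hfc.isPathConnected_compl_of_one_lt_rank hrank).isConnected.isPreconnected
  obtain ⟨c, hc⟩ := hK.2.2
  have hKne : (interior Kᶜ).Nonempty := by
    rw [hK.1.isClosed.isOpen_compl.interior_eq]
    by_contra h
    rw [Set.not_nonempty_iff_eq_empty, Set.compl_empty_iff] at h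
    have h2 := hK.1
    rw [h] at h2
    exact noncompact_univ V h2
  obtain ⟨d, hd⟩ := hKne
  have hc1 : (frontier K)ᶜ ⊆ interior K ∪ interior Kᶜ := by
    rw [compl_frontier_eq_union_interior]
  obtain ⟨e, -, he1, he2⟩ := hconn (interior K) (interior Kᶜ) isOpen_interior isOpen_interior hc1
    ⟨c, by rw [compl_frontier_eq_union_interior]; exact Or.inl hc, hc⟩
    ⟨d, by rw [compl_frontier_eq_union_interior]; exact Or.inr hd, hd⟩
  exact interior_subset he2 (interior_subset he1)

end Pool.Agent.Q232.CT
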