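import Pool.Agent.Q232.CT.BM

/-!
# Bodies of least density among the bodies with the same difference body
-/

namespace Pool.Agent.Q232.CT

open MeasureTheory Filter Topology
open scoped ENNReal Pointwise
open Pool.Agent.H349R2.Tet Pool.Agent.TH219.DL

theorem ov_iff {K : Set V} (hK : Body K) (u : V) : Ov K u ↔ u ∈ interior (K - K) := by
  constructor
  · rintro ⟨x, hx, hxu⟩
    have h1 : IsOpen (interior K - interior K) := isOpen_interior.sub_right
    refine interior_maximal (Set.sub_subset_sub interior_subset interior_subset) h1 ?_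
    exact ⟨x, hx, x - u, hxu, by simp⟩
  · intro hu
    obtain ⟨c, hc⟩ := hK.2.2
    -- a slightly larger multiple of `u`
    have hcont : Tendsto (fun η : ℝ => (1 + η) • u) (𝓝 0) (𝓝 ((1 + (0 : ℝ)) • u)) :=
      Continuous.tendsto (by fun_prop) 0
    rw [add_zero, one_smul] at hcont
    have h1 := hcont.eventually (isOpen_interior.mem_nhds hu)
    obtain ⟨e, he, h2⟩ := Metric.eventually_nhds_iff.1 h1
    obtain ⟨η, hη⟩ : ∃ η, η = e / 2 := ⟨_, rfl⟩
    have hη0 : 0 < η := by rw [hη]; positivity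
    have h3 := h2 (y := η) (by rw [Real.dist_eq, sub_zero, abs_of_pos hη0, hη]; linarith)
    obtain ⟨x, hx, y, hy, hxy⟩ := interior_subset h3
    have hxy' : x - y = (1 + η) • u := hxy
    have hpos : 0 < 1 + η := by linarith
    have e1 : ∀ z ∈ K, (1 / (1 + η)) • z + (η / (1 + η)) • c ∈ interior K := by
      intro z hz
      refine hK.2.1.combo_self_interior_mem_interior hz hc (by positivity) (by positivity) ?_
      field_simp
    refine ⟨_, e1 x hx, ?_⟩
    have e2 : (1 / (1 + η)) • x + (η / (1 + η)) • c - u = (1 / (1 + η)) • y + (η / (1 + η)) • c := by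
      have h4 : u = (1 / (1 + η)) • (x - y) := by
        rw [hxy', smul_smul]
        field_simp
        rw [one_smul]
      rw [h4, smul_sub]
      abel
    rw [e2]
    exact e1 y hy

theorem ov_congr {K K' : Set V} (hK : Body K) (hK' : Body K') (h : K - K = K' - K') (u : V) :
    Ov K u ↔ Ov K' u := by
  rw [ov_iff hK, ov_iff hK', h]

theorem vol_pos {K : Set V} (hK : Body K) : 0 < volume K :=
  lt_of_lt_of_le (isOpen_interior.measure_pos volume hK.2.2) (measure_mono interior_subset)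

/-- a density function which scales like the volume for bodies with the same difference body -/
def Scale (δ : Set V → ℝ≥0∞) : Prop :=
  ∀ K K' : Set V, Body K → Body K' → K - K = K' - K' → δ K * volume K' ≤ δ K' * volume K

theorem scale_dL : Scale dL := by
  intro K K' hK hK' h
  rw [dL_eq K]
  unfold deltaL
  simp only [ENNReal.iSup_mul]
  refine iSup₂_le fun b hb => ?_
  have hb' : Packs K' b := by
    rw [packs_iff] at hb ⊢
    exact ⟨hb.1, fun u hu hu0 hov => hb.2 u hu hu0 ((ov_congr hK hK' h u).2 hov)⟩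
  calc dens K b * volume K' = dens K' b * volume K := by
        rw [dens_eq b hb.1 K hK.1, dens_eq b hb.1 K' hK'.1, div_eq_mul_inv, div_eq_mul_inv]
        ring
    _ ≤ dL K' * volume K := by
        gcongr
        rw [dL_eq]
        exact le_iSup₂_of_le b hb' le_rfl

theorem limsup_shift (φ f : ℝ → ℝ≥0∞) (R : ℝ) (hf : Tendsto f atTop (𝓝 1)) :
    limsup (fun r => φ (r + R) * f r) atTop ≤ limsup φ atTop := by
  apply le_of_forall_gt_imp_ge_of_dense
  intro c hc
  rcases eq_or_ne c ∞ with rfl | hct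
  · exact le_top
  have h1 : ∀ᶠ r in atTop, φ r < c := eventually_lt_of_limsup_lt hc
  have h2 : ∀ᶠ r in atTop, φ (r + R) < c :=
    (tendsto_atTop_add_const_right atTop R tendsto_id).eventually h1
  have h3 : Tendsto (fun r => c * f r) atTop (𝓝 (c * 1)) :=
    ENNReal.Tendsto.const_mul hf (Or.inr hct)
  rw [mul_one] at h3
  rw [← h3.limsup_eq]
  apply limsup_le_limsup
  · filter_upwards [h2] with r hr
    gcongr
  · exact Filter.isCobounded_le_of_bot
  · exact Filter.isBounded_le_of_top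

theorem ratio_tendsto (R : ℝ) (hR : 0 < R) :
    Tendsto (fun r : ℝ => volume (Bl (r + R)) / volume (Bl r)) atTop (𝓝 1) := by
  have h1 : Tendsto (fun r : ℝ => ((r + R) / r) ^ 3) atTop (𝓝 1) := by
    have h2 : Tendsto (fun r : ℝ => (1 + R * r⁻¹) ^ 3) atTop (𝓝 ((1 + R * 0) ^ 3)) :=
      ((tendsto_const_nhds.add (tendsto_const_nhds.mul tendsto_inv_atTop_zero)).pow 3)
    simp only [mul_zero, add_zero, one_pow] at h2
    refine h2.congr' ?_
    filter_upwards [eventually_gt_atTop 0] with r hr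
    congr 1
    field_simp
  have h3 := ENNReal.tendsto_ofReal h1
  rw [ENNReal.ofReal_one] at h3
  refine h3.congr' ?_
  filter_upwards [eventually_gt_atTop 0] with r hr
  have hb0 : volume (Bl 1) ≠ 0 := vol_bl_one_pos.ne'
  have hbt : volume (Bl 1) ≠ ∞ := vol_bl_one_lt_top.ne
  rw [vol_bl hr, vol_bl (by linarith : 0 < r + R), ENNReal.mul_div_mul_right _ _ hb0 hbt,
    ← ENNReal.ofReal_div_of_pos (by positivity), div_pow]

theorem diff_bdd {K K' : Set V} (hK : IsCompact K) (hK' : IsCompact K') :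
    ∃ R : ℝ, 0 < R ∧ ∀ x ∈ K, ∀ y ∈ K', x - y ∈ Bl R := by
  obtain ⟨R1, hR1⟩ := hK.isBounded.subset_closedBall (0 : V)
  obtain ⟨R2, hR2⟩ := hK'.isBounded.subset_closedBall (0 : V)
  have h1 : K ⊆ Bl (2 * max R1 1) :=
    (hR1.trans (Metric.closedBall_subset_closedBall (le_max_left R1 1))).trans
      (ball_subset_bl _ (by positivity))
  have h2 : K' ⊆ Bl (2 * max R2 1) :=
    (hR2.trans (Metric.closedBall_subset_closedBall (le_max_left R2 1))).trans
      (ball_subset_bl _ (by positivity))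
  refine ⟨2 * max R1 1 + 2 * max R2 1, by positivity, fun x hx y hy => ?_⟩
  rw [sub_eq_add_neg]
  exact bl_add (by positivity) (by positivity) (h1 hx) (bl_neg (h2 hy))

theorem mem_false_eq (K : Set V) {p : Bool × V} (h : p.1 = false) : mem K p = tr K p.2 := by
  have : p = (false, p.2) := Prod.ext h rfl
  rw [this, mem_false]

theorem den_scale {K K' : Set V} (hK : IsCompact K) (hK' : IsCompact K') (hV : volume K ≠ 0)
    {S : Set (Bool × V)} (hS : ∀ p ∈ S, p.1 = false) :
    den K' S * volume K ≤ den K S * volume K' := by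
  obtain ⟨R, hR, hRb⟩ := diff_bdd hK hK'
  have hKt : volume K ≠ ∞ := hK.measure_lt_top.ne
  have hterm : ∀ r : ℝ, 0 < r → ∀ p : S, volume (mem K' p.1 ∩ Bl r)
      ≤ volume K' / volume K * volume (mem K p.1 ∩ Bl (r + R)) := by
    intro r hr p
    rcases Set.eq_empty_or_nonempty (mem K' p.1 ∩ Bl r) with he | ⟨X, hX, hXr⟩
    · rw [he, measure_empty]; exact bot_le
    · rw [mem_false_eq K' (hS _ p.2)] at hX ⊢
      rw [mem_false_eq K (hS _ p.2)]
      obtain ⟨y, hy, hyX⟩ := hX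
      have hyX' : y + p.1.2 = X := hyX
      have hsub : tr K p.1.2 ⊆ Bl (r + R) := by
        rintro _ ⟨x, hx, rfl⟩
        have h1 := bl_add hr.le hR.le hXr (hRb x hx y hy)
        have e : X + (x - y) = x + p.1.2 := by rw [← hyX']; abel
        rwa [e] at h1
      have htr : ∀ A : Set V, volume (tr A p.1.2) = volume A := by
        intro A
        unfold tr
        rw [Set.image_add_right, measure_preimage_add_right]
      rw [Set.inter_eq_left.2 hsub, htr]
      calc volume (tr K' p.1.2 ∩ Bl r) ≤ volume (tr K' p.1.2) := measure_mono Set.inter_subset_left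
        _ = volume K' := htr K'
        _ = volume K' / volume K * volume K := (ENNReal.div_mul_cancel hV hKt).symm
        _ ≤ _ := le_rfl
  have h1 : den K' S ≤ volume K' / volume K * den K S := by
    unfold den
    have h2 : limsup (fun r : ℝ => (∑' p : S, volume (mem K' p.1 ∩ Bl r)) / volume (Bl r)) atTop
        ≤ limsup (fun r : ℝ => volume K' / volume K *
          ((fun r : ℝ => (∑' p : S, volume (mem K p.1 ∩ Bl r)) / volume (Bl r)) (r + R) *
            (volume (Bl (r + R)) / volume (Bl r)))) atTop := by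
      apply limsup_le_limsup
      · filter_upwards [eventually_gt_atTop 0] with r hr
        have hb0 : ∀ s : ℝ, 0 < s → volume (Bl s) ≠ 0 := fun s hs => by
          rw [vol_bl hs]
          exact mul_ne_zero (by rw [ne_eq, ENNReal.ofReal_eq_zero, not_le]; positivity)
            vol_bl_one_pos.ne'
        have hbt : ∀ s : ℝ, 0 < s → volume (Bl s) ≠ ∞ := fun s hs => by
          rw [vol_bl hs]
          exact ENNReal.mul_ne_top ENNReal.ofReal_ne_top vol_bl_one_lt_top.ne
        have e : (∑' p : S, volume (mem K p.1 ∩ Bl (r + R))) / volume (Bl (r + R)) *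
            (volume (Bl (r + R)) / volume (Bl r)) =
            (∑' p : S, volume (mem K p.1 ∩ Bl (r + R))) / volume (Bl r) := by
          rw [← mul_div_assoc, ENNReal.div_mul_cancel (hb0 _ (by linarith)) (hbt _ (by linarith))]
        show _ ≤ volume K' / volume K *
          ((∑' p : S, volume (mem K p.1 ∩ Bl (r + R))) / volume (Bl (r + R)) *
            (volume (Bl (r + R)) / volume (Bl r)))
        rw [e, ← mul_div_assoc, ← ENNReal.tsum_mul_left]
        exact ENNReal.div_le_div_right (ENNReal.tsum_le_tsum (hterm r hr)) _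
      · exact Filter.isCobounded_le_of_bot
      · exact Filter.isBounded_le_of_top
    refine h2.trans ?_
    rw [ENNReal.limsup_const_mul_of_ne_top (ENNReal.div_ne_top hK'.measure_lt_top.ne hV)]
    gcongr
    exact limsup_shift _ _ R (ratio_tendsto R hR)
  calc den K' S * volume K ≤ (volume K' / volume K * den K S) * volume K := by gcongr
    _ = den K S * (volume K' / volume K * volume K) := by ring
    _ = den K S * volume K' := by rw [ENNReal.div_mul_cancel hV hKt]

theorem pack_congr {K K' : Set V} (hK : Body K) (hK' : Body K') (h : K - K = K' - K')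
    {S : Set (Bool × V)} (hS : ∀ p ∈ S, p.1 = false) (hp : IsPack K S) : IsPack K' S := by
  intro p hpS q hqS hpq
  have h1 := hp p hpS q hqS hpq
  rw [mem_false_eq _ (hS p hpS), mem_false_eq _ (hS q hqS)] at h1 ⊢
  rw [pack_interior_tr, pack_interior_tr, Set.disjoint_left] at h1 ⊢
  rintro X ⟨x, hx, hxX⟩ ⟨y, hy, hyX⟩
  have hxX' : x + p.2 = X := hxX
  have hyX' : y + q.2 = X := hyX
  have hov : Ov K' (q.2 - p.2) := ⟨x, hx, by
    have : x - (q.2 - p.2) = y := by
      have e : x = y + q.2 - p.2 := by rw [hyX', ← hxX']; abel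
      rw [e]; abel
    rw [this]; exact hy⟩
  obtain ⟨z, hz, hz'⟩ := (ov_congr hK hK' h _).2 hov
  refine h1 (a := z + p.2) ⟨z, hz, rfl⟩ ⟨z - (q.2 - p.2), hz', ?_⟩
  show z - (q.2 - p.2) + q.2 = z + p.2
  abel

theorem scale_dT : Scale dT := by
  intro K K' hK hK' h
  have h0 : dT K = ⨆ (S : Set (Bool × V)) (_ : (∀ p ∈ S, p.1 = false) ∧ IsPack K S), den K S := rfl
  rw [h0]
  simp only [ENNReal.iSup_mul]
  refine iSup₂_le fun S hS => ?_
  refine (den_scale hK'.1 hK.1 (vol_pos hK').ne' hS.1).trans ?_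
  gcongr
  exact le_iSup₂_of_le S ⟨hS.1, pack_congr hK hK' h hS.1 hS.2⟩ le_rfl

theorem dT_le_one {K : Set V} (hK : Body K) : dT K ≤ 1 := by
  refine iSup₂_le fun S hS => ?_
  have h1 : ∀ r : ℝ, (∑' p : S, volume (mem K p.1 ∩ Bl r)) ≤ volume (Bl r) := by
    intro r
    have hterm : ∀ p : S, volume (mem K p.1 ∩ Bl r) ≤ volume (interior (mem K p.1) ∩ Bl r) := by
      intro p
      have hc : Convex ℝ (mem K p.1) := by
        rw [mem_false_eq K (hS.1 _ p.2)]
        have e : tr K p.1.2 = (fun z => p.1.2 + z) '' K := by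
          unfold tr
          apply Set.image_congr
          intro x _
          exact add_comm _ _
        rw [e]
        exact hK.2.1.translate p.1.2
      have hfr := hc.addHaar_frontier (volume : Measure V)
      calc volume (mem K p.1 ∩ Bl r)
          ≤ volume ((interior (mem K p.1) ∩ Bl r) ∪ frontier (mem K p.1)) := by
            apply measure_mono
            rintro x ⟨hx, hxr⟩
            by_cases hxi : x ∈ interior (mem K p.1)
            · exact Or.inl ⟨hxi, hxr⟩
            · exact Or.inr ⟨subset_closure hx, hxi⟩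
        _ ≤ _ := measure_union_le _ _
        _ = _ := by rw [hfr, add_zero]
    have hcount : (S : Set (Bool × V)).Countable ∨ True := Or.inr trivial
    calc (∑' p : S, volume (mem K p.1 ∩ Bl r))
        ≤ ∑' p : S, volume (interior (mem K p.1) ∩ Bl r) := ENNReal.tsum_le_tsum hterm
      _ ≤ volume (⋃ p : S, interior (mem K p.1) ∩ Bl r) := by
          apply tsum_meas_le_meas_iUnion_of_disjoint
          · intro p; exact isOpen_interior.measurableSet.inter (bl_measurable r)
          · intro p q hpq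
            exact (hS.2 p.1 p.2 q.1 q.2 (fun e => hpq (Subtype.ext e))).mono
              Set.inter_subset_left Set.inter_subset_left
      _ ≤ volume (Bl r) := measure_mono (Set.iUnion_subset fun p => Set.inter_subset_right)
  unfold den
  refine limsup_le_of_le (by isBoundedDefault) (Eventually.of_forall fun r => ?_)
  exact (ENNReal.div_le_div_right (h1 r) _).trans ENNReal.div_self_le_one

/-- Minkowski combination -/
theorem comb_diff {K L : Set V} (hK : Convex ℝ K) (h : K - K = L - L) {s : ℝ} (h0 : 0 ≤ s)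
    (h1 : s ≤ 1) : ((1 - s) • K + s • L) - ((1 - s) • K + s • L) = K - K := by
  apply Set.Subset.antisymm
  · rintro _ ⟨_, ⟨_, ⟨a, ha, rfl⟩, _, ⟨b, hb, rfl⟩, rfl⟩, _, ⟨_, ⟨a', ha', rfl⟩, _, ⟨b', hb', rfl⟩, rfl⟩,
      rfl⟩
    have h2 : b - b' ∈ K - K := by rw [h]; exact ⟨b, hb, b', hb', rfl⟩
    have h3 := (hK.sub hK) (⟨a, ha, a', ha', rfl⟩ : a - a' ∈ K - K) h2
      (by linarith : 0 ≤ 1 - s) h0 (by ring)
    convert h3 using 1
    simp only [smul_sub]
    abel
  · intro d hd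
    have hd' := hd
    rw [h] at hd'
    obtain ⟨a, ha, a', ha', haa⟩ := hd
    obtain ⟨b, hb, b', hb', hbb⟩ := hd'
    refine ⟨(1 - s) • a + s • b, ⟨_, ⟨a, ha, rfl⟩, _, ⟨b, hb, rfl⟩, rfl⟩,
      (1 - s) • a' + s • b', ⟨_, ⟨a', ha', rfl⟩, _, ⟨b', hb', rfl⟩, rfl⟩, ?_⟩
    have e1 : a - a' = d := haa
    have e2 : b - b' = d := hbb
    have : (1 - s) • a + s • b - ((1 - s) • a' + s • b') = (1 - s) • (a - a') + s • (b - b') := by
      simp only [smul_sub]; abel
    show (1 - s) • a + s • b - ((1 - s) • a' + s • b') = d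
    rw [this, e1, e2]
    module

/-- a compact convex set with a body as difference set is a body -/
theorem body_of_diff {K L : Set V} (hK : Body K) (hL : IsCompact L) (hc : Convex ℝ L)
    (h : L - L = K - K) : Body L := by
  refine ⟨hL, hc, ?_⟩
  obtain ⟨c, hc'⟩ := hK.2.2
  have hne : L.Nonempty := by
    have h0 : (0 : V) ∈ L - L := by
      rw [h]
      exact ⟨c, interior_subset hc', c, interior_subset hc', sub_self c⟩
    obtain ⟨a, ha, -⟩ := h0
    exact ⟨a, ha⟩
  rw [hc.interior_nonempty_iff_affineSpan_eq_top]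
  rw [← AffineSubspace.direction_eq_top_iff_of_nonempty (hne.mono (subset_affineSpan ℝ L))]
  have hint : (interior ((affineSpan ℝ L).direction : Set V)).Nonempty := by
    have h1 : (interior (K - K)).Nonempty := ⟨0, (ov_iff hK 0).1 ⟨c, hc', by simpa using hc'⟩⟩
    refine h1.mono (interior_mono ?_)
    rw [← h]
    rintro _ ⟨a, ha, b, hb, rfl⟩
    exact AffineSubspace.vsub_mem_direction (subset_affineSpan ℝ L ha) (subset_affineSpan ℝ L hb)
  exact Submodule.eq_top_of_nonempty_interior' _ hint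

/-- cancellation -/
theorem cancel_le {M A B : Set V} (hM : IsCompact M) (hMn : M.Nonempty)
    (hB : IsCompact B) (hBc : Convex ℝ B) (h : M + A ⊆ M + B) : A ⊆ B := by
  intro a ha
  by_contra haB
  obtain ⟨l, u, h1, h2⟩ := geometric_hahn_banach_closed_point hBc hB.isClosed haB
  obtain ⟨m, hm, hmax⟩ := hM.exists_isMaxOn hMn l.continuous.continuousOn
  obtain ⟨m', hm', b, hb, he⟩ := h ⟨m, hm, a, ha, rfl⟩
  have he' : m' + b = m + a := he
  have h3 := congrArg l he'
  rw [map_add, map_add] at h3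
  have h4 := h1 b hb
  have h5 : l m' ≤ l m := hmax hm'
  linarith

theorem cancel {M A B : Set V} (hM : IsCompact M) (hMn : M.Nonempty)
    (hA : IsCompact A) (hAc : Convex ℝ A) (hB : IsCompact B) (hBc : Convex ℝ B)
    (h : M + A = M + B) : A = B :=
  Set.Subset.antisymm (cancel_le hM hMn hB hBc h.subset) (cancel_le hM hMn hA hAc h.symm.subset)

/-- the core: two bodies with the same difference body and at least the density of their mean -/
theorem core {δ : Set V → ℝ≥0∞} (hδ : Scale δ) {K K1 K2 : Set V} (hK : Body K) (hK1 : Body K1)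
    (hK2 : Body K2) (h0 : δ K ≠ 0) (ht : δ K ≠ ∞) (hd1 : K - K = K1 - K1) (hd2 : K - K = K2 - K2)
    (hm : K = (1 / 2 : ℝ) • K1 + (1 / 2 : ℝ) • K2) (h1 : δ K ≤ δ K1) (h2 : δ K ≤ δ K2) :
    ∃ w : V, K1 = (fun x => x + w) '' K2 := by
  have key : ∀ L : Set V, Body L → K - K = L - L → δ K ≤ δ L → volume K ≤ volume L := by
    intro L hL hd hle
    have h3 := hδ L K hL hK hd.symm
    have h4 : δ K * volume K ≤ δ K * volume L := (by gcongr : δ K * volume K ≤ δ L * volume K).trans h3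
    exact (ENNReal.mul_le_mul_iff_right h0 ht).1 h4
  have hv1 := ENNReal.toReal_mono hK1.1.measure_ne_top (key K1 hK1 hd1 h1)
  have hv2 := ENNReal.toReal_mono hK2.1.measure_ne_top (key K2 hK2 hd2 h2)
  have hmid : ∀ x ∈ K1, ∀ y ∈ K2, (1 / 2 : ℝ) • x + (1 / 2 : ℝ) • y ∈ K := by
    intro x hx y hy
    rw [hm]
    exact ⟨_, ⟨x, hx, rfl⟩, _, ⟨y, hy, rfl⟩, rfl⟩
  have hbm := bm_real hK1.1 hK2.1 hK.1 hmid
  have hv : 0 < (volume K).toReal := ENNReal.toReal_pos (vol_pos hK).ne' hK.1.measure_ne_top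
  have e1 : (volume K1).toReal = (volume K).toReal := by nlinarith
  have e2 : (volume K2).toReal = (volume K).toReal := by nlinarith
  exact bm_eq hK1 hK2 hK.1 hmid (by rw [e1, e2]) e1.ge

/-- local minima, with respect to all nearby bodies -/
def LocalMin (δ : Set V → ℝ≥0∞) (K : Set V) : Prop :=
  ∃ ε : ℝ, 0 < ε ∧ ∀ A : Set V, Body A → (∀ x ∈ K, ∃ y ∈ A, ‖x - y‖ ≤ ε) →
    (∀ y ∈ A, ∃ x ∈ K, ‖x - y‖ ≤ ε) → δ K ≤ δ A

theorem main {δ : Set V → ℝ≥0∞} (hδ : Scale δ) {K K1 K2 : Set V} (hK : Body K)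
    (hK1 : IsCompact K1) (hK1c : Convex ℝ K1) (hK2 : IsCompact K2) (hK2c : Convex ℝ K2)
    (h0 : δ K ≠ 0) (ht : δ K ≠ ∞)
    (hd : K1 - K1 = K2 - K2) (hm : K = (1 / 2 : ℝ) • K1 + (1 / 2 : ℝ) • K2)
    (hmin : LocalMin δ K) : ∃ w : V, K1 = (fun x => x + w) '' K ∧ K2 = (fun x => x - w) '' K := by
  have hhalf : (1 - 1 / 2 : ℝ) = 1 / 2 := by norm_num
  have hdK : K - K = K1 - K1 := by
    have := comb_diff hK1c hd (s := 1 / 2) (by norm_num) (by norm_num)
    rwa [hhalf, ← hm] at this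
  obtain ⟨ε, hε, hloc⟩ := hmin
  obtain ⟨c, hc⟩ := hK.2.2
  have hcK := interior_subset hc
  have hK1b : Body K1 := body_of_diff hK hK1 hK1c hdK.symm
  have hK2b : Body K2 := body_of_diff hK hK2 hK2c (by rw [hdK, hd])
  -- a common bound
  obtain ⟨R, hR⟩ := ((hK.1.union hK1).union hK2).isBounded.subset_closedBall (0 : V)
  have hRb : ∀ x ∈ (K ∪ K1) ∪ K2, ‖x‖ ≤ R := fun x hx => mem_closedBall_zero_iff.1 (hR hx)
  have hR0 : 0 ≤ R := (norm_nonneg _).trans (hRb c (Or.inl (Or.inl hcK)))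
  obtain ⟨s, hs⟩ : ∃ s, s = min (1 / 2) (ε / (2 * R + 1)) := ⟨_, rfl⟩
  have hs0 : 0 < s := by rw [hs]; exact lt_min (by norm_num) (by positivity)
  have hs1 : s ≤ 1 / 2 := by rw [hs]; exact min_le_left _ _
  have hsε : s * (2 * R) ≤ ε := by
    have h1 : s ≤ ε / (2 * R + 1) := by rw [hs]; exact min_le_right _ _
    rw [le_div_iff₀ (by positivity)] at h1
    nlinarith
  have hbody : ∀ L : Set V, Body L → K - K = L - L → Body ((1 - s) • K + s • L) ∧
      K - K = ((1 - s) • K + s • L) - ((1 - s) • K + s • L) := by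
    intro L hL h
    have h1 := comb_diff hK.2.1 h hs0.le (by linarith)
    exact ⟨body_of_diff hK ((hK.1.smul (1 - s)).add (hL.1.smul s))
      ((hK.2.1.smul (1 - s)).add (hL.2.1.smul s)) h1, h1.symm⟩
  have hnear : ∀ L : Set V, Body L → (∀ x ∈ L, ‖x‖ ≤ R) → K - K = L - L →
      δ K ≤ δ ((1 - s) • K + s • L) := by
    intro L hL hLR h
    obtain ⟨d, hd⟩ := hL.2.2
    have hdL := interior_subset hd
    have key : ∀ x ∈ K, ∀ y ∈ L, ∀ x' ∈ K, x' = x → ‖x - ((1 - s) • x' + s • y)‖ ≤ ε := by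
      rintro x hx y hy x' hx' rfl
      have e : x' - ((1 - s) • x' + s • y) = s • (x' - y) := by module
      rw [e, norm_smul, Real.norm_eq_abs, abs_of_pos hs0]
      refine le_trans ?_ hsε
      gcongr
      calc ‖x' - y‖ ≤ ‖x'‖ + ‖y‖ := norm_sub_le _ _
        _ ≤ R + R := add_le_add (hRb x' (Or.inl (Or.inl hx'))) (hLR y hy)
        _ = 2 * R := by ring
    refine hloc _ (hbody L hL h).1 (fun x hx => ?_) ?_
    · exact ⟨(1 - s) • x + s • d, ⟨_, ⟨x, hx, rfl⟩, _, ⟨d, hdL, rfl⟩, rfl⟩, key x hx d hdL x hx rfl⟩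
    · rintro _ ⟨_, ⟨x, hx, rfl⟩, _, ⟨y, hy, rfl⟩, rfl⟩
      exact ⟨x, hx, key x hx y hy x hx rfl⟩
  have hmean : K = (1 / 2 : ℝ) • ((1 - s) • K + s • K1) + (1 / 2 : ℝ) • ((1 - s) • K + s • K2) := by
    apply Set.Subset.antisymm
    · intro x hx
      have hx' := hx
      rw [hm] at hx'
      obtain ⟨_, ⟨a, ha, rfl⟩, _, ⟨b, hb, rfl⟩, hab⟩ := hx'
      have hab' : (1 / 2 : ℝ) • a + (1 / 2 : ℝ) • b = x := hab
      refine ⟨_, ⟨(1 - s) • x + s • a, ⟨_, ⟨x, hx, rfl⟩, _, ⟨a, ha, rfl⟩, rfl⟩, rfl⟩,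
        _, ⟨(1 - s) • x + s • b, ⟨_, ⟨x, hx, rfl⟩, _, ⟨b, hb, rfl⟩, rfl⟩, rfl⟩, ?_⟩
      show (1 / 2 : ℝ) • ((1 - s) • x + s • a) + (1 / 2 : ℝ) • ((1 - s) • x + s • b) = x
      have : (1 / 2 : ℝ) • ((1 - s) • x + s • a) + (1 / 2 : ℝ) • ((1 - s) • x + s • b) =
        (1 - s) • x + s • ((1 / 2 : ℝ) • a + (1 / 2 : ℝ) • b) := by module
      rw [this, hab']
      module
    · rintro _ ⟨_, ⟨_, ⟨_, ⟨x, hx, rfl⟩, _, ⟨a, ha, rfl⟩, rfl⟩, rfl⟩,
        _, ⟨_, ⟨_, ⟨y, hy, rfl⟩, _, ⟨b, hb, rfl⟩, rfl⟩, rfl⟩, rfl⟩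
      have h1 : (1 / 2 : ℝ) • x + (1 / 2 : ℝ) • y ∈ K :=
        hK.2.1 hx hy (by norm_num) (by norm_num) (by norm_num)
      have h2 : (1 / 2 : ℝ) • a + (1 / 2 : ℝ) • b ∈ K := by
        rw [hm]; exact ⟨_, ⟨a, ha, rfl⟩, _, ⟨b, hb, rfl⟩, rfl⟩
      have h3 := hK.2.1 h1 h2 (by linarith : 0 ≤ 1 - s) hs0.le (by ring)
      convert h3 using 1
      show (1 / 2 : ℝ) • ((1 - s) • x + s • a) + (1 / 2 : ℝ) • ((1 - s) • y + s • b) = _
      module
  obtain ⟨w, hw⟩ := core hδ hK (hbody K1 hK1b hdK).1 (hbody K2 hK2b (by rw [hdK, hd])).1 h0 ht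
    (hbody K1 hK1b hdK).2 (hbody K2 hK2b (by rw [hdK, hd])).2 hmean
    (hnear K1 hK1b (fun x hx => hRb x (Or.inl (Or.inr hx))) hdK)
    (hnear K2 hK2b (fun x hx => hRb x (Or.inr hx)) (by rw [hdK, hd]))
  · -- cancellation
    have e1 : (1 - s) • K + s • K1 = (1 - s) • K + (fun x => x + w) '' (s • K2) := by
      rw [hw]
      ext x
      constructor
      · rintro ⟨_, ⟨_, ⟨a, ha, rfl⟩, _, ⟨b, hb, rfl⟩, rfl⟩, rfl⟩
        exact ⟨_, ⟨a, ha, rfl⟩, _, ⟨_, ⟨b, hb, rfl⟩, rfl⟩, (add_assoc _ _ _).symm⟩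
      · rintro ⟨_, ⟨a, ha, rfl⟩, _, ⟨_, ⟨b, hb, rfl⟩, rfl⟩, rfl⟩
        exact ⟨_, ⟨_, ⟨a, ha, rfl⟩, _, ⟨b, hb, rfl⟩, rfl⟩, add_assoc _ _ _⟩
    have hK2s : IsCompact ((fun x => x + w) '' (s • K2)) := (hK2.smul s).image (by fun_prop)
    have hK2sc : Convex ℝ ((fun x => x + w) '' (s • K2)) := by
      have := (hK2c.smul s).translate w
      simpa [add_comm] using this
    have e2 := cancel (hK.1.smul (1 - s)) ⟨_, c, hcK, rfl⟩ (hK1.smul s) (hK1c.smul s) hK2s hK2sc e1
    -- `K1 = K2 + w / s`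
    obtain ⟨z, hz⟩ : ∃ z : V, z = s⁻¹ • w := ⟨_, rfl⟩
    have hsz : s • z = w := by rw [hz, smul_smul, mul_inv_cancel₀ hs0.ne', one_smul]
    have e3 : K1 = (fun x => x + z) '' K2 := by
      ext x
      constructor
      · intro hx
        have h1 : s • x ∈ (fun x => x + w) '' (s • K2) := by rw [← e2]; exact ⟨x, hx, rfl⟩
        obtain ⟨_, ⟨y, hy, rfl⟩, hxy⟩ := h1
        refine ⟨y, hy, ?_⟩
        have h2 : s • (y + z) = s • x := by rw [smul_add, hsz]; exact hxy
        exact smul_right_injective V hs0.ne' h2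
      · rintro ⟨y, hy, rfl⟩
        have h1 : s • (y + z) ∈ s • K1 := by
          rw [e2, smul_add, hsz]
          exact ⟨_, ⟨y, hy, rfl⟩, rfl⟩
        obtain ⟨x', hx', he⟩ := h1
        have : x' = y + z := smul_right_injective V hs0.ne' he
        show y + z ∈ K1
        rwa [← this]
    have e4 : K = (fun x => x + (1 / 2 : ℝ) • z) '' K2 := by
      conv_lhs => rw [hm, e3]
      ext x
      constructor
      · rintro ⟨_, ⟨_, ⟨a, ha, rfl⟩, rfl⟩, _, ⟨b, hb, rfl⟩, rfl⟩
        refine ⟨(1 / 2 : ℝ) • a + (1 / 2 : ℝ) • b, hK2c ha hb (by norm_num) (by norm_num)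
          (by norm_num), ?_⟩
        show (1 / 2 : ℝ) • a + (1 / 2 : ℝ) • b + (1 / 2 : ℝ) • z =
          (1 / 2 : ℝ) • (a + z) + (1 / 2 : ℝ) • b
        module
      · rintro ⟨a, ha, rfl⟩
        refine ⟨_, ⟨_, ⟨a, ha, rfl⟩, rfl⟩, _, ⟨a, ha, rfl⟩, ?_⟩
        show (1 / 2 : ℝ) • (a + z) + (1 / 2 : ℝ) • a = a + (1 / 2 : ℝ) • z
        module
    refine ⟨(1 / 2 : ℝ) • z, ?_, ?_⟩
    · rw [e3, e4, Set.image_image]
      apply Set.image_congr
      intro x _
      module
    · conv_rhs => rw [e4]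
      rw [Set.image_image]
      symm
      convert Set.image_id K2 using 2
      funext x
      simp

end Pool.Agent.Q232.CT
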