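import Pool.Agent.Q232.CT.Main

/-!
# Contact points: the limit
-/

namespace Pool.Agent.Q232.CT

open MeasureTheory Filter Topology
open scoped ENNReal
open Pool.Agent.H349R2.Tet Pool.Agent.TH219.DL

/-- the coefficients of points of lattices converge to integers -/
theorem lim_mem {b : ℕ → Fin 3 → V} {b0 : Fin 3 → V} {u : ℕ → V} {u0 : V}
    (hb : Tendsto b atTop (𝓝 b0)) (hu : Tendsto u atTop (𝓝 u0)) (h0 : dt b0 ≠ 0)
    (hm : ∀ n, u n ∈ lat (b n)) : u0 ∈ lat b0 := by
  choose z hz using hm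
  have hdt : Tendsto (fun n => dt (b n)) atTop (𝓝 (dt b0)) := (continuous_dt.tendsto b0).comp hb
  have hlim : ∀ i, Tendsto (fun n => ((z n i : ℤ) : ℝ)) atTop
      (𝓝 (dt (Function.update b0 i u0) / dt b0)) := by
    intro i
    have h1 : Tendsto (fun n => dt (Function.update (b n) i (u n))) atTop
        (𝓝 (dt (Function.update b0 i u0))) :=
      (continuous_dt.tendsto _).comp (hb.update i hu)
    have h2 := h1.div hdt h0
    refine h2.congr' ?_
    have h3 : ∀ᶠ n in atTop, dt (b n) ≠ 0 := hdt.eventually_ne h0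
    filter_upwards [h3] with n hn
    have h4 := cramer (b n) (fun j => ((z n j : ℤ) : ℝ)) i
    rw [← hz n] at h4
    rw [Pi.div_apply, h4, mul_div_assoc, div_self hn, mul_one]
  have hint : ∀ i, ∃ k : ℤ, (k : ℝ) = dt (Function.update b0 i u0) / dt b0 := by
    intro i
    have h1 := Int.isClosedEmbedding_coe_real.isClosed_range.mem_of_tendsto (hlim i)
      (Eventually.of_forall fun n => ⟨z n i, rfl⟩)
    exact h1
  choose k hk using hint
  refine ⟨k, ?_⟩
  have h1 : Tendsto (fun n => ∑ i, ((z n i : ℤ) : ℝ) • b n i) atTop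
      (𝓝 (∑ i, ((k i : ℤ) : ℝ) • b0 i)) := by
    apply tendsto_finsetSum
    intro i _
    rw [hk i]
    exact (hlim i).smul ((continuous_apply i).tendsto b0 |>.comp hb)
  have h2 : u = fun n => ∑ i, ((z n i : ℤ) : ℝ) • b n i := funext hz
  rw [h2] at hu
  exact tendsto_nhds_unique hu h1

/-- limits of packing lattices of the cut bodies are packing lattices of the body -/
theorem lim_packs {K : Set V} {p : V} {ε : ℕ → ℝ}
    (hε : Tendsto ε atTop (𝓝 0)) {b : ℕ → Fin 3 → V} {b0 : Fin 3 → V}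
    (hb : Tendsto b atTop (𝓝 b0)) (h0 : dt b0 ≠ 0)
    (hp : ∀ n, Packs (cut K p (ε n)) (b n)) : Packs K b0 := by
  rw [packs_iff]
  refine ⟨h0, fun u hu hu0 hov => ?_⟩
  obtain ⟨x, hx, hxu⟩ := hov
  have hWo : IsOpen (interior K ∩ (fun x : V => x - u) ⁻¹' interior K) :=
    isOpen_interior.inter (isOpen_interior.preimage (by fun_prop))
  obtain ⟨y, hy, hyp, hyp'⟩ := avoid hWo ⟨x, hx, hxu⟩ p (p + u)
  have hyu : y - u ≠ p := fun h => hyp' (by rw [← h]; abel)
  obtain ⟨r1, hr1, h1⟩ := Metric.isOpen_iff.1 isOpen_interior y hy.1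
  obtain ⟨r2, hr2, h2⟩ := Metric.isOpen_iff.1 isOpen_interior (y - u) hy.2
  obtain ⟨ρ, hρ⟩ : ∃ ρ, ρ = min (min r1 r2) (min (dist y p / 2) (dist (y - u) p / 2)) := ⟨_, rfl⟩
  have hρ0 : 0 < ρ := by
    rw [hρ]
    exact lt_min (lt_min hr1 hr2) (lt_min (half_pos (dist_pos.2 hyp)) (half_pos (dist_pos.2 hyu)))
  have hρ1 : ρ ≤ r1 := by rw [hρ]; exact (min_le_left _ _).trans (min_le_left _ _)
  have hρ2 : ρ ≤ r2 := by rw [hρ]; exact (min_le_left _ _).trans (min_le_right _ _)
  have hρ3 : ρ ≤ dist y p / 2 := by rw [hρ]; exact (min_le_right _ _).trans (min_le_left _ _)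
  have hρ4 : ρ ≤ dist (y - u) p / 2 := by
    rw [hρ]; exact (min_le_right _ _).trans (min_le_right _ _)
  obtain ⟨z, hz⟩ := hu
  have hun : Tendsto (fun n => ∑ i, ((z i : ℤ) : ℝ) • b n i) atTop (𝓝 u) := by
    rw [hz]
    apply tendsto_finsetSum
    intro i _
    exact tendsto_const_nhds.smul ((continuous_apply i).tendsto b0 |>.comp hb)
  have e1 : ∀ᶠ n in atTop, ε n < ρ := hε.eventually (gt_mem_nhds hρ0)
  have e2 : ∀ᶠ n in atTop, dist (∑ i, ((z i : ℤ) : ℝ) • b n i) u < ρ :=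
    hun.eventually (Metric.ball_mem_nhds _ hρ0)
  have e3 : ∀ᶠ n in atTop, (∑ i, ((z i : ℤ) : ℝ) • b n i) ≠ 0 := hun.eventually_ne hu0
  obtain ⟨n, h3, h4, h5⟩ := (e1.and (e2.and e3)).exists
  have hb1 : Metric.ball y ρ ⊆ interior (cut K p (ε n)) :=
    interior_maximal (ball_cut ((Metric.ball_subset_ball hρ1).trans (h1.trans interior_subset))
      (by linarith)) Metric.isOpen_ball
  have hb2 : Metric.ball (y - u) ρ ⊆ interior (cut K p (ε n)) :=
    interior_maximal (ball_cut ((Metric.ball_subset_ball hρ2).trans (h2.trans interior_subset))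
      (by linarith)) Metric.isOpen_ball
  refine ((packs_iff _ _).1 (hp n)).2 _ ⟨z, rfl⟩ h5 ⟨y, hb1 (Metric.mem_ball_self hρ0), hb2 ?_⟩
  rw [Metric.mem_ball, dist_eq_norm, sub_sub_sub_cancel_left, ← dist_eq_norm, dist_comm]
  exact h4

/-- **Contact theorem.** -/
theorem contact {K : Set V} (hK : Body K) (hmin : LocMin dL K) {p : V}
    (hp : p ∈ K.extremePoints ℝ) :
    ∃ b : Fin 3 → V, Packs K b ∧ (∀ b', Packs K b' → |dt b| ≤ |dt b'|) ∧
      ∃ u ∈ lat b, u ≠ 0 ∧ p - u ∈ K := by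
  obtain ⟨ε0, hε0, hloc⟩ := hmin
  obtain ⟨c, r, hr, hc, hd⟩ := good_ball hK p
  obtain ⟨s, hs⟩ : ∃ s, s = min (ε0 / 2) r := ⟨_, rfl⟩
  have hs0 : 0 < s := by rw [hs]; exact lt_min (by positivity) hr
  let ε : ℕ → ℝ := fun n => s / (n + 1)
  have hεpos : ∀ n, 0 < ε n := fun n => by positivity
  have hεs : ∀ n, ε n ≤ s := fun n => by
    apply div_le_self hs0.le
    have : (0 : ℝ) ≤ n := n.cast_nonneg
    linarith
  have hεr : ∀ n, ε n ≤ r := fun n => (hεs n).trans (by rw [hs]; exact min_le_right _ _)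
  have hεt : Tendsto ε atTop (𝓝 0) := by
    have := tendsto_one_div_add_atTop_nhds_zero_nat (𝕜 := ℝ)
    have h2 := this.const_mul s
    simpa [ε, div_eq_mul_inv] using h2
  have hbody : ∀ n, Body (cut K p (ε n)) := fun n => cut_body hK hr hc hd (hεr n)
  have hmn : ∀ n, dL K ≤ dL (cut K p (ε n)) := fun n =>
    hloc _ (hbody n) (cut_sub hK.2.1 p _) fun x hx => by
      obtain ⟨y, hy, hxy⟩ := cut_near hK hp.1 hr hc hd (hεpos n) (hεr n) x hx
      refine ⟨y, hy, hxy.trans ?_⟩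
      have h1 := hεs n
      have h2 : s ≤ ε0 / 2 := by rw [hs]; exact min_le_left _ _
      linarith
  -- some packing lattice of `K`
  obtain ⟨bK, hbK⟩ : ∃ bK, Packs K bK := by
    by_contra h
    push Not at h
    have h1 := dL_pos hK
    rw [dL_eq] at h1
    unfold deltaL at h1
    obtain ⟨b, h1⟩ := lt_iSup_iff.1 h1
    obtain ⟨hb, -⟩ := lt_iSup_iff.1 h1
    exact h b hb
  obtain ⟨M, hM⟩ : ∃ M, M = 8 * dt bK ^ 2 / (r ^ 2) ^ 2 := ⟨_, rfl⟩
  have hstep : ∀ n, ∃ (b : Fin 3 → V) (u x : V), Packs (cut K p (ε n)) b ∧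
      (∀ b', Packs K b' → |dt b| ≤ |dt b'|) ∧ (∀ i, ‖b i‖ ^ 2 ≤ M) ∧ (r ^ 2) ^ 3 ≤ 8 * dt b ^ 2 ∧
      u ∈ lat b ∧ r ≤ ‖u‖ ∧ x ∈ K ∧ x - u ∈ K ∧ dist x p < ε n := by
    intro n
    obtain ⟨b, hb, hbm⟩ := exists_denser hK hp (hεpos n) (hbody n) (hmn n)
    have hcc : Metric.ball c r ⊆ cut K p (ε n) := ball_cut hc (by linarith [hεr n])
    obtain ⟨b', h1, h2, h3, h4⟩ := packs_reduced hb hr hcc
    have hb' : Packs (cut K p (ε n)) b' := packs_congr h1 h2 hb
    have hnK : ¬ Packs K b' := fun h => absurd (hbm b' h) (by rw [h2]; exact lt_irrefl _)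
    obtain ⟨u, hu, hu0, x, hx, hxu, hxp⟩ := exists_touch hb' hnK
    have hdd : dt b' ^ 2 = dt b ^ 2 := by rw [← sq_abs, h2, sq_abs]
    refine ⟨b', u, x, hb', fun b'' h => ?_, fun i => (h3 i).trans ?_, ?_, hu,
      min_norm hb' hr hcc hu hu0, hx, hxu, hxp⟩
    · rw [h2]; exact (hbm b'' h).le
    · rw [hM]
      apply div_le_div_of_nonneg_right _ (by positivity)
      have h5 : dt b ^ 2 ≤ dt bK ^ 2 := by
        rw [← sq_abs, ← sq_abs (dt bK)]
        exact pow_le_pow_left₀ (abs_nonneg _) (hbm bK hbK).le 2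
      linarith
    · rw [hdd]; exact h4
  choose b u x h1 h2 h3 h4 h5 h6 h7 h8 h9 using hstep
  -- compactness
  obtain ⟨R, hR⟩ := hK.1.isBounded.subset_closedBall (0 : V)
  have hR0 : 0 ≤ R := by
    have := hR (h7 0)
    rw [mem_closedBall_zero_iff] at this
    exact (norm_nonneg _).trans this
  have hM0 : 0 ≤ M := by rw [hM]; positivity
  obtain ⟨S, hS⟩ : ∃ S, S = max (√M) (2 * R) := ⟨_, rfl⟩
  have hbd : ∀ n, ((b n, u n, x n) : (Fin 3 → V) × V × V) ∈ Metric.closedBall
      (0 : (Fin 3 → V) × V × V) S := by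
    intro n
    rw [mem_closedBall_zero_iff]
    have hS0 : 0 ≤ S := by rw [hS]; exact (Real.sqrt_nonneg _).trans (le_max_left _ _)
    have hx : ‖x n‖ ≤ R := mem_closedBall_zero_iff.1 (hR (h7 n))
    have hxu : ‖x n - u n‖ ≤ R := mem_closedBall_zero_iff.1 (hR (h8 n))
    rw [Prod.norm_def, Prod.norm_def]
    refine max_le ?_ (max_le ?_ ?_)
    · rw [pi_norm_le_iff_of_nonneg hS0]
      intro i
      refine le_trans ?_ ((le_max_left _ _).trans hS.ge)
      exact Real.le_sqrt_of_sq_le (h3 n i)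
    · show ‖u n‖ ≤ S
      have e : u n = x n - (x n - u n) := by abel
      rw [e]
      calc ‖x n - (x n - u n)‖ ≤ ‖x n‖ + ‖x n - u n‖ := norm_sub_le _ _
        _ ≤ 2 * R := by linarith
        _ ≤ S := by rw [hS]; exact le_max_right _ _
    · show ‖x n‖ ≤ S
      refine hx.trans ?_
      rw [hS]
      refine le_trans ?_ (le_max_right _ _)
      linarith
  obtain ⟨⟨b0, u0, x0⟩, -, φ, hφ, hlim⟩ :=
    (isCompact_closedBall (0 : (Fin 3 → V) × V × V) S).tendsto_subseq hbd
  have hlb : Tendsto (fun n => b (φ n)) atTop (𝓝 b0) :=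
    (continuous_fst.tendsto _).comp hlim
  have hlu : Tendsto (fun n => u (φ n)) atTop (𝓝 u0) :=
    ((continuous_fst.comp continuous_snd).tendsto _).comp hlim
  have hlx : Tendsto (fun n => x (φ n)) atTop (𝓝 x0) :=
    ((continuous_snd.comp continuous_snd).tendsto _).comp hlim
  have hle : Tendsto (fun n => ε (φ n)) atTop (𝓝 0) := hεt.comp hφ.tendsto_atTop
  have hld : Tendsto (fun n => dt (b (φ n))) atTop (𝓝 (dt b0)) :=
    (continuous_dt.tendsto b0).comp hlb
  have hdt0 : dt b0 ≠ 0 := by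
    intro h0
    have h10 : Tendsto (fun n => 8 * dt (b (φ n)) ^ 2) atTop (𝓝 (8 * dt b0 ^ 2)) :=
      (hld.pow 2).const_mul 8
    have h11 := ge_of_tendsto h10 (Eventually.of_forall fun n => h4 (φ n))
    rw [h0] at h11
    have : 0 < (r ^ 2) ^ 3 := by positivity
    linarith
  have hx0 : x0 = p := by
    have h10 : Tendsto (fun n => dist (x (φ n)) p) atTop (𝓝 0) :=
      squeeze_zero (fun _ => dist_nonneg) (fun n => (h9 (φ n)).le) hle
    exact tendsto_nhds_unique hlx (tendsto_iff_dist_tendsto_zero.2 h10)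
  refine ⟨b0, lim_packs hle hlb hdt0 fun n => h1 (φ n), fun b' hb' => ?_, u0,
    lim_mem hlb hlu hdt0 fun n => h5 (φ n), ?_, ?_⟩
  · exact le_of_tendsto hld.abs (Eventually.of_forall fun n => h2 (φ n) b' hb')
  · have h10 : r ≤ ‖u0‖ := ge_of_tendsto hlu.norm (Eventually.of_forall fun n => h6 (φ n))
    intro h0
    rw [h0, norm_zero] at h10
    linarith
  · rw [← hx0]
    exact hK.1.isClosed.mem_of_tendsto (hlx.sub hlu) (Eventually.of_forall fun n => h8 (φ n))

/-- the family of the densest packing lattices -/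
def Densest (K : Set V) : Set (Set V) :=
  {L | ∃ b : Fin 3 → V, L = lat b ∧ LinearIndependent ℝ b ∧ IsPack K (famL b) ∧
    den K (famL b) = dL K}

theorem densest_of {K : Set V} (hK : Body K) {b : Fin 3 → V} (hb : Packs K b)
    (hm : ∀ b', Packs K b' → |dt b| ≤ |dt b'|) :
    LinearIndependent ℝ b ∧ IsPack K (famL b) ∧ den K (famL b) = dL K := by
  have h := (packs_famL K b).2 hb
  refine ⟨h.1, h.2, ?_⟩
  rw [den_famL, dL_eq]
  refine le_antisymm (le_iSup₂_of_le b hb le_rfl) (iSup₂_le fun b' hb' => ?_)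
  rw [dens_eq b hb.1 K hK.1, dens_eq b' hb'.1 K hK.1]
  exact ENNReal.div_le_div_left (ENNReal.ofReal_le_ofReal (hm b' hb')) _

/-- strictly convex local minima have uncountably many densest packing lattices -/
theorem uncountable {K : Set V} (hK : Body K) (hmin : LocMin dL K) (hs : StrictConvex ℝ K) :
    ¬ (Densest K).Countable := by
  intro hcount
  have hext : frontier K ⊆ K.extremePoints ℝ := by
    intro x hx
    have hxK : x ∈ K := hK.1.isClosed.frontier_subset hx
    have hxi : x ∉ interior K := fun h => (disjoint_interior_frontier (s := K)).le_bot ⟨h, hx⟩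
    rw [mem_extremePoints]
    refine ⟨hxK, fun y hy z hz hxs => ?_⟩
    by_contra hne
    have hyz : y ≠ z := by
      rintro rfl
      rw [openSegment_same] at hxs
      exact hne ⟨hxs.symm, hxs.symm⟩
    exact hxi (hs.openSegment_subset hy hz hyz hxs)
  have hsub : frontier K ⊆ ⋃ L ∈ Densest K, ⋃ u ∈ {u | u ∈ L ∧ u ≠ 0 ∧ ¬ Ov K u},
      {x | x ∈ K ∧ x - u ∈ K} := by
    intro p hp
    have hpe := hext hp
    obtain ⟨b, hb, hbm, u, hu, hu0, hpu⟩ := contact hK hmin hpe
    rw [Set.mem_iUnion₂]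
    refine ⟨lat b, ⟨b, rfl, densest_of hK hb hbm⟩, ?_⟩
    rw [Set.mem_iUnion₂]
    exact ⟨u, ⟨hu, hu0, ((packs_iff K b).1 hb).2 u hu hu0⟩, hpe.1, hpu⟩
  have hfc : (frontier K).Countable := by
    refine Set.Countable.mono hsub (hcount.biUnion fun L hL => ?_)
    obtain ⟨b, rfl, -⟩ := hL
    refine Set.Countable.biUnion ((lat_countable b).mono fun u hu => hu.1) fun u hu => ?_
    refine Set.Subsingleton.countable ?_
    intro x hx y hy
    by_contra hxy
    apply hu.2.2
    refine ⟨(1 / 2 : ℝ) • x + (1 / 2 : ℝ) • y, ?_, ?_⟩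
    · exact hs hx.1 hy.1 hxy (by norm_num) (by norm_num) (by norm_num)
    · have hne : x - u ≠ y - u := fun h => hxy (sub_left_injective h)
      have h := hs hx.2 hy.2 hne (a := 1 / 2) (b := 1 / 2) (by norm_num) (by norm_num) (by norm_num)
      convert h using 1
      module
  -- the complement of a countable set is connected
  have hrank : 1 < Module.rank ℝ V := by
    rw [rank_fin_fun]
    norm_num
  have hconn := (hfc.isPathConnected_compl_of_one_lt_rank hrank).isConnected.isPreconnected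
  obtain ⟨c, hc⟩ := hK.2.2
  have hKne : (interior Kᶜ).Nonempty := by
    rw [hK.1.isClosed.isOpen_compl.interior_eq]
    by_contra h
    rw [Set.not_nonempty_iff_eq_empty, Set.compl_empty_iff] at h
    have h2 := hK.1
    rw [h] at h2
    exact noncompact_univ V h2
  obtain ⟨d, hd⟩ := hKne
  have hc1 : (frontier K)ᶜ ⊆ interior K ∪ interior Kᶜ := by
    rw [compl_frontier_eq_union_interior]
  obtain ⟨e, -, he1, he2⟩ := hconn (interior K) (interior Kᶜ) isOpen_interior isOpen_interior hc1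
    ⟨c, by rw [compl_frontier_eq_union_interior]; exact Or.inl hc, hc⟩
    ⟨d, by rw [compl_frontier_eq_union_interior]; exact Or.inr hd, hd⟩
  exact interior_subset he2 (interior_subset he1)

end Pool.Agent.Q232.CT
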