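import Pool.Agent.Q232.CT.Red
import Pool.Agent.TH219.DL.Bridge
import Pool.Agent.H349R2.Tet.Dens1
import Pool.Agent.H349R2.Tet.Basic
import Pool.Agent.Y98.EC.Hull

/-!
# Contact points of bodies with locally minimal lattice packing density
-/

namespace Pool.Agent.Q232.CT

open MeasureTheory Filter Topology
open scoped ENNReal
open Pool.Agent.H349R2.Tet Pool.Agent.TH219.DL

/-- the body with the part near `p` cut off -/
def cut (K : Set V) (p : V) (ε : ℝ) : Set V := convexHull ℝ (K \ Metric.ball p ε)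

theorem cut_sub {K : Set V} (hK : Convex ℝ K) (p : V) (ε : ℝ) : cut K p ε ⊆ K :=
  convexHull_min Set.sdiff_subset hK

theorem cut_compact {K : Set V} (hK : IsCompact K) (p : V) (ε : ℝ) : IsCompact (cut K p ε) :=
  Pool.Agent.Y98.EC.isCompact_hull (hK.diff Metric.isOpen_ball)

theorem not_mem_cut {K : Set V} (hK : Convex ℝ K) {p : V} (hp : p ∈ K.extremePoints ℝ) {ε : ℝ}
    (hε : 0 < ε) : p ∉ cut K p ε := by
  intro h
  have h1 : p ∈ (cut K p ε).extremePoints ℝ :=
    inter_extremePoints_subset_extremePoints_of_subset (cut_sub hK p ε) ⟨h, hp⟩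
  exact (extremePoints_convexHull_subset h1).2 (Metric.mem_ball_self hε)

theorem mem_cut {K : Set V} {p x : V} {ε : ℝ} (hx : x ∈ K) (h : ε ≤ dist x p) : x ∈ cut K p ε :=
  subset_convexHull ℝ _ ⟨hx, fun h' => absurd (Metric.mem_ball.1 h') (not_lt.2 h)⟩

theorem ball_cut {K : Set V} {p y : V} {ρ ε : ℝ} (h : Metric.ball y ρ ⊆ K)
    (hd : ρ + ε ≤ dist y p) : Metric.ball y ρ ⊆ cut K p ε := by
  intro x hx
  refine mem_cut (h hx) ?_
  have h1 := Metric.mem_ball.1 hx
  have h2 := dist_triangle y x p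
  rw [dist_comm y x] at h2
  linarith

theorem avoid {W : Set V} (hW : IsOpen W) (hne : W.Nonempty) (p p' : V) :
    ∃ y ∈ W, y ≠ p ∧ y ≠ p' := by
  obtain ⟨y, hy, hyp⟩ := (dense_compl_singleton p).inter_open_nonempty W hW hne
  have hW2 : IsOpen (W ∩ {p}ᶜ) := hW.inter isOpen_compl_singleton
  obtain ⟨y', hy', hyp'⟩ := (dense_compl_singleton p').inter_open_nonempty _ hW2 ⟨y, hy, hyp⟩
  exact ⟨y', hy'.1, hy'.2, hyp'⟩

/-- a ball in the body which is not touched by the cuts -/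
theorem good_ball {K : Set V} (hK : Body K) (p : V) :
    ∃ (c : V) (r : ℝ), 0 < r ∧ Metric.ball c r ⊆ K ∧ 2 * r ≤ dist c p := by
  obtain ⟨c, hc, hcp, -⟩ := avoid isOpen_interior hK.2.2 p p
  obtain ⟨r1, hr1, h1⟩ := Metric.isOpen_iff.1 isOpen_interior c hc
  have hd : 0 < dist c p := dist_pos.2 hcp
  refine ⟨c, min r1 (dist c p / 2), lt_min hr1 (by positivity), ?_, ?_⟩
  · exact (Metric.ball_subset_ball (min_le_left _ _)).trans (h1.trans interior_subset)
  · have := min_le_right r1 (dist c p / 2)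
    linarith

theorem min_norm {A : Set V} {b : Fin 3 → V} (hp : Packs A b) {c : V} {r : ℝ} (hr : 0 < r)
    (hc : Metric.ball c r ⊆ A) {u : V} (hu : u ∈ lat b) (hu0 : u ≠ 0) : r ≤ ‖u‖ := by
  by_contra hlt
  push Not at hlt
  have hint : Metric.ball c r ⊆ interior A := interior_maximal hc Metric.isOpen_ball
  refine ((packs_iff A b).1 hp).2 u hu hu0 ⟨c, hint (Metric.mem_ball_self hr), hint ?_⟩
  rw [Metric.mem_ball, dist_eq_norm]
  simpa using hlt

theorem norm_sq_le (x : V) : ‖x‖ ^ 2 ≤ q x := by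
  have h : ‖x‖ ≤ √(q x) := by
    rw [pi_norm_le_iff_of_nonneg (Real.sqrt_nonneg _)]
    intro i
    rw [Real.norm_eq_abs]
    apply Real.abs_le_sqrt
    unfold q
    fin_cases i
    · show x 0 ^ 2 ≤ _
      nlinarith [sq_nonneg (x 1), sq_nonneg (x 2)]
    · show x 1 ^ 2 ≤ _
      nlinarith [sq_nonneg (x 0), sq_nonneg (x 2)]
    · show x 2 ^ 2 ≤ _
      nlinarith [sq_nonneg (x 1), sq_nonneg (x 0)]
  calc ‖x‖ ^ 2 ≤ √(q x) ^ 2 := pow_le_pow_left₀ (norm_nonneg _) h 2
    _ = q x := Real.sq_sqrt (q_nonneg x)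

theorem packs_congr {A : Set V} {b b' : Fin 3 → V} (h : lat b' = lat b) (hd : |dt b'| = |dt b|)
    (hp : Packs A b) : Packs A b' := by
  rw [packs_iff] at hp ⊢
  refine ⟨?_, ?_⟩
  · rw [← abs_ne_zero, hd, abs_ne_zero]; exact hp.1
  · rw [h]; exact hp.2

/-- reduced bases of packing lattices -/
theorem packs_reduced {A : Set V} {b : Fin 3 → V} (hp : Packs A b) {c : V} {r : ℝ} (hr : 0 < r)
    (hc : Metric.ball c r ⊆ A) :
    ∃ b' : Fin 3 → V, lat b' = lat b ∧ |dt b'| = |dt b| ∧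
      (∀ i, ‖b' i‖ ^ 2 ≤ 8 * dt b ^ 2 / (r ^ 2) ^ 2) ∧ (r ^ 2) ^ 3 ≤ 8 * dt b ^ 2 := by
  have hmin : ∀ u ∈ lat b, u ≠ 0 → r ^ 2 ≤ q u := fun u hu hu0 =>
    (pow_le_pow_left₀ hr.le (min_norm hp hr hc hu hu0) 2).trans (norm_sq_le u)
  obtain ⟨b', h1, h2, h3, h4⟩ := reduced b (m := r ^ 2) (by positivity) ((packs_iff A b).1 hp).1 hmin
  exact ⟨b', h1, h2, fun i => (norm_sq_le _).trans (h3 i), h4⟩

theorem dL_lt_top {K : Set V} (hK : Body K) : dL K < ∞ := by
  obtain ⟨c, r, hr, hc, -⟩ := good_ball hK 0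
  have h : dL K ≤ volume K / ENNReal.ofReal (√((r ^ 2) ^ 3 / 8)) := by
    rw [dL_eq]
    unfold deltaL
    refine iSup₂_le fun b hb => ?_
    rw [dens_eq b hb.1 K hK.1]
    refine ENNReal.div_le_div_left (ENNReal.ofReal_le_ofReal ?_) _
    obtain ⟨-, -, -, -, h4⟩ := packs_reduced hb hr hc
    apply Real.sqrt_le_iff.2
    refine ⟨abs_nonneg _, ?_⟩
    rw [sq_abs]
    linarith
  refine lt_of_le_of_lt h (ENNReal.div_lt_top hK.1.measure_lt_top.ne ?_)
  rw [ne_eq, ENNReal.ofReal_eq_zero, not_le]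
  positivity

theorem dL_pos {K : Set V} (hK : Body K) : 0 < dL K :=
  lt_of_lt_of_le (by rw [ENNReal.ofReal_pos]; norm_num) (dL_low hK)

theorem vol_cut_lt {K : Set V} (hK : Body K) {p : V} (hp : p ∈ K.extremePoints ℝ) {ε : ℝ}
    (hε : 0 < ε) : volume (cut K p ε) < volume K := by
  have hcl : IsClosed (cut K p ε) := (cut_compact hK.1 p ε).isClosed
  have hpK : p ∈ closure (interior K) := by
    rw [hK.2.1.closure_interior_eq_closure_of_nonempty_interior hK.2.2]
    exact subset_closure hp.1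
  have hne : (interior K ∩ (cut K p ε)ᶜ).Nonempty := by
    have h1 := mem_closure_iff.1 hpK (cut K p ε)ᶜ hcl.isOpen_compl (not_mem_cut hK.2.1 hp hε)
    rwa [Set.inter_comm] at h1
  have hpos : 0 < volume (interior K ∩ (cut K p ε)ᶜ) :=
    (isOpen_interior.inter hcl.isOpen_compl).measure_pos volume hne
  have hle : volume (cut K p ε) + volume (interior K ∩ (cut K p ε)ᶜ) ≤ volume K := by
    rw [← measure_union _ (isOpen_interior.inter hcl.isOpen_compl).measurableSet]
    · exact measure_mono (Set.union_subset (cut_sub hK.2.1 p ε)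
        (Set.inter_subset_left.trans interior_subset))
    · rw [Set.disjoint_left]
      exact fun x hx hx' => hx'.2 hx
  have hfin : volume (cut K p ε) ≠ ∞ := (cut_compact hK.1 p ε).measure_lt_top.ne
  calc volume (cut K p ε) < volume (cut K p ε) + volume (interior K ∩ (cut K p ε)ᶜ) :=
        ENNReal.lt_add_right hfin hpos.ne'
    _ ≤ volume K := hle

/-- local minima of a function of convex bodies, with respect to bodies inside the given one -/
def LocMin (δ : Set V → ℝ≥0∞) (K : Set V) : Prop :=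
  ∃ ε : ℝ, 0 < ε ∧ ∀ A : Set V, Body A → A ⊆ K → (∀ x ∈ K, ∃ y ∈ A, ‖x - y‖ ≤ ε) → δ K ≤ δ A

theorem cut_body {K : Set V} (hK : Body K) {p c : V} {r ε : ℝ} (hr : 0 < r)
    (hc : Metric.ball c r ⊆ K) (hd : 2 * r ≤ dist c p) (hε : ε ≤ r) : Body (cut K p ε) := by
  refine ⟨cut_compact hK.1 p ε, convex_convexHull ℝ _, c, ?_⟩
  exact interior_maximal (ball_cut hc (by linarith)) Metric.isOpen_ball (Metric.mem_ball_self hr)

theorem cut_near {K : Set V} (hK : Body K) {p c : V} {r ε : ℝ} (hp : p ∈ K) (hr : 0 < r)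
    (hc : Metric.ball c r ⊆ K) (hd : 2 * r ≤ dist c p) (hε0 : 0 < ε) (hε : ε ≤ r) :
    ∀ x ∈ K, ∃ y ∈ cut K p ε, ‖x - y‖ ≤ 2 * ε := by
  intro x hx
  by_cases hxp : ε ≤ dist x p
  · exact ⟨x, mem_cut hx hxp, by simp; linarith⟩
  · push Not at hxp
    have hcp : 0 < ‖c - p‖ := by rw [← dist_eq_norm]; linarith
    obtain ⟨s, hs⟩ : ∃ s, s = ε / ‖c - p‖ := ⟨_, rfl⟩
    have hs0 : 0 ≤ s := by rw [hs]; positivity
    have hs1 : s ≤ 1 := by
      rw [hs, div_le_one hcp, ← dist_eq_norm]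
      linarith
    have hyK : p + s • (c - p) ∈ K := by
      have h := hK.2.1 hp (hc (Metric.mem_ball_self hr)) (by linarith : 0 ≤ 1 - s) hs0 (by ring)
      convert h using 1
      module
    have hyd : dist (p + s • (c - p)) p = ε := by
      rw [dist_eq_norm, add_sub_cancel_left, norm_smul, Real.norm_eq_abs, abs_of_nonneg hs0, hs]
      field_simp
    refine ⟨_, mem_cut hyK hyd.ge, ?_⟩
    rw [← dist_eq_norm]
    have := dist_triangle_right x (p + s • (c - p)) p
    linarith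

/-- a lattice packing of the cut body which is denser than all lattice packings of the body -/
theorem exists_denser {K : Set V} (hK : Body K) {p : V} (hp : p ∈ K.extremePoints ℝ) {ε : ℝ}
    (hε : 0 < ε) (hcut : Body (cut K p ε)) (hmin : dL K ≤ dL (cut K p ε)) :
    ∃ b, Packs (cut K p ε) b ∧ ∀ b', Packs K b' → |dt b| < |dt b'| := by
  have hv := vol_cut_lt hK hp hε
  have hvK0 : volume K ≠ 0 := (lt_of_le_of_lt bot_le hv).ne'
  have hvKt : volume K ≠ ∞ := hK.1.measure_lt_top.ne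
  have h1 : volume (cut K p ε) / volume K * dL K < dL (cut K p ε) := by
    refine lt_of_lt_of_le ?_ hmin
    have h2 : volume (cut K p ε) / volume K < 1 :=
      (ENNReal.div_lt_iff (Or.inl hvK0) (Or.inl hvKt)).2 (by rwa [one_mul])
    calc volume (cut K p ε) / volume K * dL K < 1 * dL K :=
          ENNReal.mul_lt_mul_left (dL_pos hK).ne' (dL_lt_top hK).ne h2
      _ = dL K := one_mul _
  rw [dL_eq (cut K p ε)] at h1
  unfold deltaL at h1
  obtain ⟨b, h1⟩ := lt_iSup_iff.1 h1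
  obtain ⟨hb, h1⟩ := lt_iSup_iff.1 h1
  refine ⟨b, hb, fun b' hb' => ?_⟩
  by_contra hcon
  push Not at hcon
  apply absurd h1
  rw [not_lt, dens_eq b hb.1 _ hcut.1]
  have h3 : volume K / ENNReal.ofReal |dt b'| ≤ dL K := by
    rw [← dens_eq b' hb'.1 K hK.1, dL_eq]
    exact le_iSup₂_of_le b' hb' le_rfl
  calc volume (cut K p ε) / ENNReal.ofReal |dt b|
      ≤ volume (cut K p ε) / ENNReal.ofReal |dt b'| :=
        ENNReal.div_le_div_left (ENNReal.ofReal_le_ofReal hcon) _
    _ = volume (cut K p ε) / volume K * (volume K / ENNReal.ofReal |dt b'|) := by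
        rw [div_eq_mul_inv, div_eq_mul_inv, div_eq_mul_inv, mul_assoc, ← mul_assoc (volume K)⁻¹,
          ENNReal.inv_mul_cancel hvK0 hvKt, one_mul]
    _ ≤ _ := by gcongr

/-- the translate which touches the part cut off -/
theorem exists_touch {K : Set V} {p : V} {ε : ℝ} {b : Fin 3 → V}
    (hb : Packs (cut K p ε) b) (hn : ¬ Packs K b) :
    ∃ u ∈ lat b, u ≠ 0 ∧ ∃ x ∈ K, x - u ∈ K ∧ dist x p < ε := by
  rw [packs_iff] at hb hn
  have hn' : ∃ u ∈ lat b, u ≠ 0 ∧ Ov K u := by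
    by_contra h
    push Not at h
    exact hn ⟨hb.1, h⟩
  obtain ⟨u, hu, hu0, x0, hx0, hx0'⟩ := hn'
  have hcont : Continuous (fun x : V => x - u) := by fun_prop
  have hWo : IsOpen (interior K ∩ (fun x : V => x - u) ⁻¹' interior K) :=
    isOpen_interior.inter (isOpen_interior.preimage hcont)
  by_cases hall : ∀ x ∈ interior K ∩ (fun x : V => x - u) ⁻¹' interior K,
      x ∈ cut K p ε ∧ x - u ∈ cut K p ε
  · exfalso
    apply hb.2 u hu hu0
    refine ⟨x0, ?_, ?_⟩
    · exact interior_maximal (fun x hx => (hall x hx).1) hWo ⟨hx0, hx0'⟩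
    · have hWo' : IsOpen ((fun x : V => x + u) ⁻¹'
          (interior K ∩ (fun x : V => x - u) ⁻¹' interior K)) :=
        hWo.preimage (by fun_prop)
      refine interior_maximal (fun x hx => ?_) hWo' ?_
      · have := (hall (x + u) hx).2
        rwa [add_sub_cancel_right] at this
      · show (x0 - u) + u ∈ interior K ∩ (fun x : V => x - u) ⁻¹' interior K
        rw [sub_add_cancel]; exact ⟨hx0, hx0'⟩
  · push Not at hall
    obtain ⟨x, ⟨hx, hx'⟩, hnot⟩ := hall
    by_cases hxc : x ∈ cut K p ε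
    · have h1 := hnot hxc
      refine ⟨-u, lat_neg hu, neg_ne_zero.2 hu0, x - u, interior_subset hx', ?_, ?_⟩
      · rw [sub_neg_eq_add, sub_add_cancel]; exact interior_subset hx
      · by_contra h2
        exact h1 (mem_cut (interior_subset hx') (not_lt.1 h2))
    · refine ⟨u, hu, hu0, x, interior_subset hx, interior_subset hx', ?_⟩
      by_contra h2
      exact hxc (mem_cut (interior_subset hx) (not_lt.1 h2))

theorem continuous_dt : Continuous (fun b : Fin 3 → V => dt b) := by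
  have h : (fun b : Fin 3 → V => dt b) = fun b => b 0 0 * b 1 1 * b 2 2 - b 0 0 * b 1 2 * b 2 1
    - b 0 1 * b 1 0 * b 2 2 + b 0 1 * b 1 2 * b 2 0 + b 0 2 * b 1 0 * b 2 1
    - b 0 2 * b 1 1 * b 2 0 := by
    funext b; exact dt_eq' b
  rw [h]
  fun_prop

theorem cramer (b : Fin 3 → V) (z : Fin 3 → ℝ) (i : Fin 3) :
    dt (Function.update b i (∑ j, z j • b j)) = z i * dt b := by
  rw [dt_eq', dt_eq', Fin.sum_univ_three]
  fin_cases i
  · simp [Function.update]; ring
  · simp [Function.update]; ring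
  · simp [Function.update]; ring

end Pool.Agent.Q232.CT
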