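import Pool.Agent.H349R2.Tet.Pack

/-!
# Reduced bases of lattices in space
-/

namespace Pool.Agent.Q232.CT

open Pool.Agent.H349R2.Tet

/-- the square of the Euclidean length -/
def q (x : V) : ℝ := x 0 ^ 2 + x 1 ^ 2 + x 2 ^ 2

/-- the scalar product -/
def dp (x y : V) : ℝ := x 0 * y 0 + x 1 * y 1 + x 2 * y 2

theorem dt_eq' (b : Fin 3 → V) : dt b = b 0 0 * b 1 1 * b 2 2 - b 0 0 * b 1 2 * b 2 1
    - b 0 1 * b 1 0 * b 2 2 + b 0 1 * b 1 2 * b 2 0 + b 0 2 * b 1 0 * b 2 1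
    - b 0 2 * b 1 1 * b 2 0 := by
  unfold dt
  rw [Matrix.det_fin_three]
  rfl

theorem gram (a b c : V) : dt ![a, b, c] ^ 2 = q a * q b * q c + 2 * dp a b * dp a c * dp b c
    - q a * dp b c ^ 2 - q b * dp a c ^ 2 - q c * dp a b ^ 2 := by
  rw [dt_eq']
  simp only [q, dp, Matrix.cons_val_zero, Matrix.cons_val_one, Matrix.cons_val]
  ring

theorem dt_trans1 (a b c : V) (m : ℝ) : dt ![a, b + m • a, c] = dt ![a, b, c] := by
  rw [dt_eq', dt_eq']
  simp only [Matrix.cons_val_zero, Matrix.cons_val_one, Matrix.cons_val, Pi.add_apply,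
    Pi.smul_apply, smul_eq_mul]
  ring

theorem dt_trans2 (a b c : V) (m n : ℝ) : dt ![a, b, c + m • a + n • b] = dt ![a, b, c] := by
  rw [dt_eq', dt_eq']
  simp only [Matrix.cons_val_zero, Matrix.cons_val_one, Matrix.cons_val, Pi.add_apply,
    Pi.smul_apply, smul_eq_mul]
  ring

theorem mem_lat3 {a b c x : V} : x ∈ lat ![a, b, c] ↔
    ∃ i j k : ℤ, x = (i : ℝ) • a + (j : ℝ) • b + (k : ℝ) • c := by
  constructor
  · rintro ⟨z, hz⟩
    refine ⟨z 0, z 1, z 2, ?_⟩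
    rw [hz, Fin.sum_univ_three]
    rfl
  · rintro ⟨i, j, k, h⟩
    refine ⟨![i, j, k], ?_⟩
    rw [h, Fin.sum_univ_three]
    rfl

theorem lat_trans1 (a b c : V) (m : ℤ) : lat ![a, b + (m : ℝ) • a, c] = lat ![a, b, c] := by
  ext x
  rw [mem_lat3, mem_lat3]
  constructor
  · rintro ⟨i, j, k, h⟩
    refine ⟨i + j * m, j, k, ?_⟩
    rw [h]; push_cast; module
  · rintro ⟨i, j, k, h⟩
    refine ⟨i - j * m, j, k, ?_⟩
    rw [h]; push_cast; module

theorem lat_trans2 (a b c : V) (m n : ℤ) :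
    lat ![a, b, c + (m : ℝ) • a + (n : ℝ) • b] = lat ![a, b, c] := by
  ext x
  rw [mem_lat3, mem_lat3]
  constructor
  · rintro ⟨i, j, k, h⟩
    refine ⟨i + k * m, j + k * n, k, ?_⟩
    rw [h]; push_cast; module
  · rintro ⟨i, j, k, h⟩
    refine ⟨i - k * m, j - k * n, k, ?_⟩
    rw [h]; push_cast; module

/-- the algebra of the reduction -/
theorem red_core {A B C P Q R d2 η : ℝ} (hA : 0 < A) (hAB : A ≤ B) (hBC : B ≤ C)
    (hη : 0 ≤ η) (hηA : 100 * η ≤ A) (hP : 2 * |P| ≤ A + η)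
    (hd : d2 = A * B * C + 2 * P * Q * R - A * R ^ 2 - B * Q ^ 2 - C * P ^ 2)
    (hmin : ∀ m n : ℤ, C - η ≤ C + m ^ 2 * A + n ^ 2 * B + 2 * m * Q + 2 * n * R + 2 * m * n * P) :
    A * B * C ≤ 8 * d2 := by
  have hN : 0.74 * (A * B) ≤ A * B - P ^ 2 := by
    have h1 : |P| ≤ 0.505 * A := by linarith
    have h2 : P ^ 2 ≤ (0.505 * A) ^ 2 := by
      rw [← sq_abs]; exact pow_le_pow_left₀ (abs_nonneg _) h1 2
    nlinarith [mul_le_mul_of_nonneg_left hAB hA.le]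
  have hAB0 : 0 < A * B := mul_pos hA (hA.trans_le hAB)
  have hN0 : 0 < A * B - P ^ 2 := by linarith
  obtain ⟨s, hs⟩ : ∃ s, s = (Q * B - R * P) / (A * B - P ^ 2) := ⟨_, rfl⟩
  obtain ⟨t, ht⟩ : ∃ t, t = (R * A - Q * P) / (A * B - P ^ 2) := ⟨_, rfl⟩
  have hs' : s * (A * B - P ^ 2) = Q * B - R * P := by rw [hs]; exact div_mul_cancel₀ _ hN0.ne'
  have ht' : t * (A * B - P ^ 2) = R * A - Q * P := by rw [ht]; exact div_mul_cancel₀ _ hN0.ne'
  have hQ : Q = s * A + t * P := by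
    have h : (A * B - P ^ 2) * Q = (A * B - P ^ 2) * (s * A + t * P) := by
      linear_combination (-A) * hs' - P * ht'
    exact mul_left_cancel₀ hN0.ne' h
  have hR : R = s * P + t * B := by
    have h : (A * B - P ^ 2) * R = (A * B - P ^ 2) * (s * P + t * B) := by
      linear_combination (-P) * hs' - B * ht'
    exact mul_left_cancel₀ hN0.ne' h
  have hm := hmin (-round s) (-round t)
  have hs1 : |s - round s| ≤ 1 / 2 := abs_sub_round s
  have ht1 : |t - round t| ≤ 1 / 2 := abs_sub_round t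
  obtain ⟨σ, hσ⟩ : ∃ σ : ℝ, σ = s - round s := ⟨_, rfl⟩
  obtain ⟨τ, hτ⟩ : ∃ τ : ℝ, τ = t - round t := ⟨_, rfl⟩
  rw [← hσ] at hs1
  rw [← hτ] at ht1
  have hsr : (round s : ℝ) = s - σ := by rw [hσ]; ring
  have htr : (round t : ℝ) = t - τ := by rw [hτ]; ring
  push_cast at hm
  rw [hsr, htr, hQ, hR] at hm
  -- the value of the form
  have hC : d2 = (A * B - P ^ 2) * (C - (s ^ 2 * A + 2 * s * t * P + t ^ 2 * B)) := by
    rw [hd, hQ, hR]; ring
  obtain ⟨h, hh⟩ : ∃ h, h = C - (s ^ 2 * A + 2 * s * t * P + t ^ 2 * B) := ⟨_, rfl⟩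
  rw [← hh] at hC
  have hm2 : C - η ≤ h + (σ ^ 2 * A + 2 * σ * τ * P + τ ^ 2 * B) := by
    rw [hh]; nlinarith [hm]
  have h1 : σ ^ 2 * A ≤ 1 / 4 * A := by
    have : σ ^ 2 ≤ (1 / 2) ^ 2 := by rw [← sq_abs]; exact pow_le_pow_left₀ (abs_nonneg _) hs1 2
    nlinarith
  have h2 : τ ^ 2 * B ≤ 1 / 4 * B := by
    have : τ ^ 2 ≤ (1 / 2) ^ 2 := by rw [← sq_abs]; exact pow_le_pow_left₀ (abs_nonneg _) ht1 2
    nlinarith
  have h3 : 2 * σ * τ * P ≤ 1 / 4 * (A + η) := by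
    have h4 : |σ * τ| ≤ 1 / 4 := by
      rw [abs_mul]
      calc |σ| * |τ| ≤ 1 / 2 * (1 / 2) := mul_le_mul hs1 ht1 (abs_nonneg _) (by norm_num)
        _ = 1 / 4 := by norm_num
    have h5 : σ * τ * P ≤ |σ * τ| * |P| := by rw [← abs_mul]; exact le_abs_self _
    have h6 : |σ * τ| * |P| ≤ 1 / 4 * |P| := mul_le_mul_of_nonneg_right h4 (abs_nonneg _)
    nlinarith
  have h7 : 0.2375 * C ≤ h := by nlinarith
  rw [hC]
  have hC0 : 0 < C := (hA.trans_le hAB).trans_le hBC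
  have h8 : 0.74 * (A * B) * (0.2375 * C) ≤ (A * B - P ^ 2) * h :=
    mul_le_mul hN h7 (by positivity) hN0.le
  have h9 : 0 < A * B * C := mul_pos hAB0 hC0
  nlinarith

theorem q_nonneg (x : V) : 0 ≤ q x := by unfold q; positivity

theorem q_pos {x : V} (hx : x ≠ 0) : 0 < q x := by
  rcases (q_nonneg x).lt_or_eq with h | h
  · exact h
  · exfalso
    apply hx
    unfold q at h
    have h0 : x 0 = 0 := by nlinarith [sq_nonneg (x 0), sq_nonneg (x 1), sq_nonneg (x 2)]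
    have h1 : x 1 = 0 := by nlinarith [sq_nonneg (x 0), sq_nonneg (x 1), sq_nonneg (x 2)]
    have h2 : x 2 = 0 := by nlinarith [sq_nonneg (x 0), sq_nonneg (x 1), sq_nonneg (x 2)]
    funext i
    fin_cases i
    · exact h0
    · exact h1
    · exact h2

theorem self_eq (b : Fin 3 → V) : b = ![b 0, b 1, b 2] := by
  funext i; fin_cases i <;> rfl

theorem lat_perm (b : Fin 3 → V) (σ : Equiv.Perm (Fin 3)) : lat (b ∘ σ) = lat b := by
  ext x
  constructor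
  · rintro ⟨z, hz⟩
    refine ⟨z ∘ σ.symm, ?_⟩
    rw [hz, ← Equiv.sum_comp σ (fun i => (((z ∘ σ.symm) i : ℤ) : ℝ) • b i)]
    simp
  · rintro ⟨z, hz⟩
    refine ⟨z ∘ σ, ?_⟩
    rw [hz, ← Equiv.sum_comp σ (fun i => ((z i : ℤ) : ℝ) • b i)]
    simp

theorem dt_perm (b : Fin 3 → V) (σ : Equiv.Perm (Fin 3)) : |dt (b ∘ σ)| = |dt b| := by
  unfold dt
  have h : Matrix.of (b ∘ σ) = (Matrix.of b).submatrix σ id := rfl
  rw [h, Matrix.det_permute]
  rcases Int.units_eq_one_or (Equiv.Perm.sign σ) with h | h <;> rw [h] <;> simp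

/-- **Reduced bases.** -/
theorem reduced (b : Fin 3 → V) {m : ℝ} (hm : 0 < m) (hb : dt b ≠ 0)
    (hmin : ∀ u ∈ lat b, u ≠ 0 → m ≤ q u) :
    ∃ b' : Fin 3 → V, lat b' = lat b ∧ |dt b'| = |dt b| ∧
      (∀ i, q (b' i) ≤ 8 * dt b ^ 2 / m ^ 2) ∧ m ^ 3 ≤ 8 * dt b ^ 2 := by
  classical
  let S : Set ℝ := {y | ∃ b' : Fin 3 → V, lat b' = lat b ∧ |dt b'| = |dt b| ∧
    y = ∑ i, q (b' i)}
  have hSne : S.Nonempty := ⟨_, b, rfl, rfl, rfl⟩
  have hSbd : BddBelow S := ⟨0, by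
    rintro y ⟨b', -, -, rfl⟩
    exact Finset.sum_nonneg fun i _ => q_nonneg _⟩
  have hη : 0 < m / 100 := by positivity
  obtain ⟨y, ⟨b1, hb1, hb1d, hy⟩, hylt⟩ := exists_lt_of_csInf_lt hSne
    (show sInf S < sInf S + m / 100 by linarith)
  -- sorted
  obtain ⟨σ, hσ⟩ : ∃ σ : Equiv.Perm (Fin 3), Monotone ((fun i => q (b1 i)) ∘ σ) :=
    ⟨Tuple.sort _, Tuple.monotone_sort _⟩
  obtain ⟨a, ha⟩ : ∃ a, a = b1 (σ 0) := ⟨_, rfl⟩
  obtain ⟨c, hc⟩ : ∃ c, c = b1 (σ 1) := ⟨_, rfl⟩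
  obtain ⟨e, he⟩ : ∃ e, e = b1 (σ 2) := ⟨_, rfl⟩
  have hb2 : b1 ∘ σ = ![a, c, e] := by
    rw [self_eq (b1 ∘ σ), ha, hc, he]; rfl
  have hlat : lat ![a, c, e] = lat b := by rw [← hb2, lat_perm, hb1]
  have hdt : |dt ![a, c, e]| = |dt b| := by rw [← hb2, dt_perm, hb1d]
  have hsum : ∑ i, q (b1 i) = q a + q c + q e := by
    rw [← Equiv.sum_comp σ (fun i => q (b1 i)), Fin.sum_univ_three, ha, hc, he]
  have hAB : q a ≤ q c := by
    rw [ha, hc]; exact hσ (by decide : (0 : Fin 3) ≤ 1)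
  have hBC : q c ≤ q e := by
    rw [hc, he]; exact hσ (by decide : (1 : Fin 3) ≤ 2)
  have hnear : ∀ b' : Fin 3 → V, lat b' = lat b → |dt b'| = |dt b| →
      q a + q c + q e ≤ ∑ i, q (b' i) + m / 100 := by
    intro b' h1 h2
    have h3 : sInf S ≤ ∑ i, q (b' i) := csInf_le hSbd ⟨b', h1, h2, rfl⟩
    rw [← hsum, ← hy]
    linarith
  have hne : ∀ i, (![a, c, e] : Fin 3 → V) i ≠ 0 := by
    intro i h0
    apply hb
    rw [← abs_eq_zero, ← hdt, abs_eq_zero]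
    unfold dt
    exact Matrix.det_eq_zero_of_row_eq_zero i (fun j => congrFun h0 j)
  have hmem : ∀ i, (![a, c, e] : Fin 3 → V) i ∈ lat b := by
    intro i
    rw [← hlat]
    refine ⟨Pi.single i 1, ?_⟩
    rw [Finset.sum_eq_single i]
    · simp
    · intro j _ hj
      rw [Pi.single_eq_of_ne hj]; simp
    · simp
  have hma : m ≤ q a := hmin a (hmem 0) (hne 0)
  have hmc : m ≤ q c := hmin c (hmem 1) (hne 1)
  have hme : m ≤ q e := hmin e (hmem 2) (hne 2)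
  have hP : 2 * |dp a c| ≤ q a + m / 100 := by
    have h1 := hnear ![a, c + ((1 : ℤ) : ℝ) • a, e] (by rw [lat_trans1, hlat])
      (by rw [dt_trans1, hdt])
    have h2 := hnear ![a, c + ((-1 : ℤ) : ℝ) • a, e] (by rw [lat_trans1, hlat])
      (by rw [dt_trans1, hdt])
    rw [Fin.sum_univ_three] at h1 h2
    simp only [Matrix.cons_val_zero, Matrix.cons_val_one, Matrix.cons_val] at h1 h2
    have e1 : q (c + ((1 : ℤ) : ℝ) • a) = q c + q a + 2 * dp a c := by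
      simp only [q, dp, Pi.add_apply, Pi.smul_apply, smul_eq_mul]; push_cast; ring
    have e2 : q (c + ((-1 : ℤ) : ℝ) • a) = q c + q a - 2 * dp a c := by
      simp only [q, dp, Pi.add_apply, Pi.smul_apply, smul_eq_mul]; push_cast; ring
    rw [e1] at h1
    rw [e2] at h2
    rcases abs_cases (dp a c) with ⟨h, -⟩ | ⟨h, -⟩ <;> rw [h] <;> linarith
  have hmain := red_core (A := q a) (B := q c) (C := q e) (P := dp a c) (Q := dp a e)
    (R := dp c e) (d2 := dt ![a, c, e] ^ 2) (η := m / 100) (hm.trans_le hma) hAB hBC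
    hη.le (by linarith) hP (gram a c e) (by
      intro i j
      have h1 := hnear ![a, c, e + (i : ℝ) • a + (j : ℝ) • c] (by rw [lat_trans2, hlat])
        (by rw [dt_trans2, hdt])
      rw [Fin.sum_univ_three] at h1
      simp only [Matrix.cons_val_zero, Matrix.cons_val_one, Matrix.cons_val] at h1
      have e1 : q (e + (i : ℝ) • a + (j : ℝ) • c) = q e + i ^ 2 * q a + j ^ 2 * q c
          + 2 * i * dp a e + 2 * j * dp c e + 2 * i * j * dp a c := by
        simp only [q, dp, Pi.add_apply, Pi.smul_apply, smul_eq_mul]; ring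
      rw [e1] at h1
      linarith)
  have hdt2 : dt ![a, c, e] ^ 2 = dt b ^ 2 := by rw [← sq_abs, hdt, sq_abs]
  rw [hdt2] at hmain
  refine ⟨![a, c, e], hlat, hdt, ?_, ?_⟩
  · intro i
    rw [le_div_iff₀ (by positivity)]
    fin_cases i
    · show q a * m ^ 2 ≤ _
      refine le_trans ?_ hmain
      have : m ^ 2 ≤ q c * q e := by rw [sq]; exact mul_le_mul hmc hme hm.le (q_nonneg _)
      calc q a * m ^ 2 ≤ q a * (q c * q e) := mul_le_mul_of_nonneg_left this (q_nonneg _)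
        _ = _ := by ring
    · show q c * m ^ 2 ≤ _
      refine le_trans ?_ hmain
      have : m ^ 2 ≤ q a * q e := by rw [sq]; exact mul_le_mul hma hme hm.le (q_nonneg _)
      calc q c * m ^ 2 ≤ q c * (q a * q e) := mul_le_mul_of_nonneg_left this (q_nonneg _)
        _ = _ := by ring
    · show q e * m ^ 2 ≤ _
      refine le_trans ?_ hmain
      have : m ^ 2 ≤ q a * q c := by rw [sq]; exact mul_le_mul hma hmc hm.le (q_nonneg _)
      calc q e * m ^ 2 ≤ q e * (q a * q c) := mul_le_mul_of_nonneg_left this (q_nonneg _)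
        _ = _ := by ring
  · refine le_trans ?_ hmain
    calc m ^ 3 = m * m * m := by ring
      _ ≤ q a * q c * q e := mul_le_mul (mul_le_mul hma hmc hm.le (q_nonneg _)) hme hm.le
          (mul_nonneg (q_nonneg _) (q_nonneg _))

end Pool.Agent.Q232.CT
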